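import Pool.Agent.Lib.MP_b5021c_nt.IfaceE3V

/-! Board b5, chapter E3V, rows PAI, PAV (helper29). -/

namespace Pool.Agent.B5.H29

open Polynomial Metric Pool.Agent.B5
open scoped Topology ComplexConjugate

/-- maximum principle for `(v - q)/q` -/
lemma mxp {q v : ℂ[X]} (hq : ∀ z : ℂ, ‖z‖ ≤ 1 → q.eval z ≠ 0)
    (hle : ∀ z : ℂ, ‖z‖ = 1 → ‖v.eval z - q.eval z‖ ≤ ‖q.eval z‖) (z : ℂ) (hz : ‖z‖ ≤ 1) :
    ‖v.eval z - q.eval z‖ ≤ ‖q.eval z‖ := by
  have hcl : closure (ball (0 : ℂ) 1) = closedBall 0 1 := closure_ball 0 one_ne_zero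
  have hd : DiffContOnCl ℂ (fun w : ℂ => (v.eval w - q.eval w) / q.eval w) (ball 0 1) := by
    constructor
    · intro w hw
      have hw' : ‖w‖ ≤ 1 := by simpa using (mem_ball.mp hw).le
      exact ((v.differentiable.sub q.differentiable).differentiableAt.div
        q.differentiable.differentiableAt (hq w hw')).differentiableWithinAt
    · rw [hcl]
      intro w hw
      have hw' : ‖w‖ ≤ 1 := by simpa using hw
      exact ((v.differentiable.sub q.differentiable).differentiableAt.div
        q.differentiable.differentiableAt (hq w hw')).continuousAt.continuousWithinAt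
  have key : ‖(v.eval z - q.eval z) / q.eval z‖ ≤ 1 := by
    refine Complex.norm_le_of_forall_mem_frontier_norm_le isBounded_ball hd (C := 1) ?_ ?_
    · intro w hw
      rw [frontier_ball (0 : ℂ) one_ne_zero] at hw
      have hw' : ‖w‖ = 1 := by simpa using hw
      rw [norm_div]
      exact (div_le_one (norm_pos_iff.mpr (hq w hw'.le))).mpr (hle w hw')
    · rw [hcl]; simpa using hz
  rw [norm_div] at key
  exact (div_le_one (norm_pos_iff.mpr (hq z hz))).mp key

lemma re_ge {x y : ℂ} (hy : y ≠ 0) (h : ‖y - x‖ ≤ ‖x‖) : 0 ≤ (2 * (x / y) - 1).re := by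
  have h2 : Complex.normSq (y - x) ≤ Complex.normSq x := by
    rw [← Complex.sq_norm, ← Complex.sq_norm]
    exact pow_le_pow_left₀ (norm_nonneg _) h 2
  have hp : 0 < Complex.normSq y := Complex.normSq_pos.mpr hy
  have e : (2 * (x / y) - 1).re = (2 * (x.re * y.re + x.im * y.im) - Complex.normSq y) /
      Complex.normSq y := by
    rw [Complex.sub_re, Complex.one_re, show (2 : ℂ) * (x / y) = ((2 : ℝ) : ℂ) * (x / y) by norm_num,
      Complex.re_ofReal_mul, Complex.div_re]
    field_simp
  rw [e]
  apply div_nonneg _ hp.le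
  simp only [Complex.normSq_apply, Complex.sub_re, Complex.sub_im] at h2 ⊢
  nlinarith

theorem pai (hfat : FatS) : PaiS := by
  intro q v hq hv hle
  have hv0 : v ≠ 0 := by
    rintro rfl
    exact hv 0 (by simp) (by simp)
  have hd : DifferentiableOn ℂ (fun z : ℂ => 2 * (q.eval z / v.eval z) - 1) (ball 0 1) := by
    intro w hw
    have hw' : ‖w‖ < 1 := by simpa using hw
    exact (((q.differentiable.differentiableAt.div v.differentiable.differentiableAt
      (hv w hw')).const_mul 2).sub_const 1).differentiableWithinAt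
  obtain ⟨h1, -⟩ := hfat (fun z => 2 * (q.eval z / v.eval z) - 1)
    (fun z => (2 * (q.eval z / v.eval z) - 1).re) {z | v.eval z = 0} (by
      have : {z : ℂ | v.eval z = 0} = (v.rootSet ℂ) := by
        ext z; simp [Polynomial.mem_rootSet, hv0]
      rw [this]; exact v.rootSet_finite ℂ) hd
    (fun z hz => re_ge (hv z hz) (mxp hq hle z hz.le)) (by
      intro z hz hzE
      have hzE' : v.eval z ≠ 0 := hzE
      have hc : ContinuousAt (fun t : ℝ => (2 * (q.eval (t * z) / v.eval (t * z)) - 1 : ℂ).re) 1 := by
        apply Complex.continuous_re.continuousAt.comp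
        have h1 : ContinuousAt (fun t : ℝ => q.eval (t * z)) 1 := by fun_prop
        have h2 : ContinuousAt (fun t : ℝ => v.eval (t * z)) 1 := by fun_prop
        exact (((h1.div h2 (by simpa using hzE')).const_mul 2).sub continuousAt_const)
      have := hc.tendsto
      simp only [Complex.ofReal_one, one_mul] at this
      exact this.mono_left nhdsWithin_le_nhds)
  have h3 : CircleIntegrable (fun z : ℂ => (1 / 2 : ℝ) • ((2 * (q.eval z / v.eval z) - 1).re + 1)) 0 1 :=
    (h1.add (circleIntegrable_const 1 0 1)).const_fun_smul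
  refine (circleIntegrable_congr fun z _ => ?_).mp h3
  simp only [smul_eq_mul, Complex.sub_re, Complex.one_re,
    show ∀ w : ℂ, (2 * w).re = 2 * w.re from fun w => by simp]
  ring

/-- the disc automorphism with `tau 0 = a` -/
noncomputable def tau (a w : ℂ) : ℂ := (w + a) / (1 + conj a * w)

lemma den_ne {a w : ℂ} (ha : ‖a‖ < 1) (hw : ‖w‖ ≤ 1) : 1 + conj a * w ≠ 0 := by
  intro h
  have h1 : ‖conj a * w‖ = 1 := by
    have : conj a * w = -1 := by linear_combination h
    rw [this]; simp
  rw [norm_mul, RCLike.norm_conj] at h1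
  nlinarith [norm_nonneg a, norm_nonneg w]

lemma tau_sq {a w : ℂ} (ha : ‖a‖ < 1) (hw : ‖w‖ ≤ 1) :
    1 - Complex.normSq (tau a w) =
      (1 - Complex.normSq a) * (1 - Complex.normSq w) / Complex.normSq (1 + conj a * w) := by
  have h := den_ne ha hw
  have hp : Complex.normSq (1 + conj a * w) ≠ 0 := (Complex.normSq_pos.mpr h).ne'
  rw [tau, Complex.normSq_div, eq_div_iff hp, sub_mul, div_mul_cancel₀ _ hp]
  simp only [Complex.normSq_apply, Complex.add_re, Complex.add_im, Complex.one_re, Complex.one_im,
    Complex.mul_re, Complex.mul_im, Complex.conj_re, Complex.conj_im]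
  ring

lemma tau_lt {a w : ℂ} (ha : ‖a‖ < 1) (hw : ‖w‖ < 1) : ‖tau a w‖ < 1 := by
  have h := tau_sq ha hw.le
  have h1 : 0 < 1 - Complex.normSq a := by
    rw [← Complex.sq_norm]; nlinarith [norm_nonneg a]
  have h2 : 0 < 1 - Complex.normSq w := by
    rw [← Complex.sq_norm]; nlinarith [norm_nonneg w]
  have h3 : 0 < Complex.normSq (1 + conj a * w) := Complex.normSq_pos.mpr (den_ne ha hw.le)
  have h4 : 0 < 1 - Complex.normSq (tau a w) := by rw [h]; positivity
  rw [← Complex.sq_norm] at h4
  nlinarith [norm_nonneg (tau a w)]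

lemma tau_eq {a w : ℂ} (ha : ‖a‖ < 1) (hw : ‖w‖ = 1) : ‖tau a w‖ = 1 := by
  have h := tau_sq ha hw.le
  have h2 : 1 - Complex.normSq w = 0 := by rw [← Complex.sq_norm, hw]; norm_num
  rw [h2] at h
  simp only [mul_zero, zero_div] at h
  rw [← Complex.sq_norm] at h
  nlinarith [norm_nonneg (tau a w)]

lemma tau_le {a w : ℂ} (ha : ‖a‖ < 1) (hw : ‖w‖ ≤ 1) : ‖tau a w‖ ≤ 1 := by
  rcases hw.lt_or_eq with h | h
  · exact (tau_lt ha h).le
  · exact (tau_eq ha h).le

lemma tau_zero (a : ℂ) : tau a 0 = a := by simp [tau]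

lemma tau_diff {a w : ℂ} (ha : ‖a‖ < 1) (hw : ‖w‖ ≤ 1) : DifferentiableAt ℂ (tau a) w := by
  unfold tau
  exact ((differentiableAt_id.add_const a)).div
    ((differentiableAt_const 1).add ((differentiableAt_id).const_mul _)) (den_ne ha hw)

lemma tau_inv {a w : ℂ} (ha : ‖a‖ < 1) (hw : ‖w‖ ≤ 1) :
    w = (tau a w - a) / (1 - conj a * tau a w) := by
  have h := den_ne ha hw
  have ha2 : (1 : ℂ) - conj a * a ≠ 0 := by
    intro h0
    have h1 : conj a * a = 1 := by linear_combination -h0
    have h2 : ‖conj a * a‖ = 1 := by rw [h1]; simp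
    rw [norm_mul, RCLike.norm_conj] at h2
    nlinarith [norm_nonneg a]
  have h3 : 1 - conj a * tau a w = (1 - conj a * a) / (1 + conj a * w) := by
    rw [tau]; field_simp; ring
  have h4 : tau a w - a = w * (1 - conj a * a) / (1 + conj a * w) := by
    rw [tau, eq_div_iff h, sub_mul, div_mul_cancel₀ _ h]; ring
  rw [h3, h4, div_div_div_cancel_right₀ h, mul_div_assoc, div_self ha2, mul_one]

theorem pav (hfat : FatS) : PavS := by
  intro q v r a hq hv hle ha hr
  have hv0 : v ≠ 0 := by
    rintro rfl
    exact hv 0 (by simp) (by simp)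
  have hfin : {z : ℂ | v.eval z = 0}.Finite := by
    have : {z : ℂ | v.eval z = 0} = (v.rootSet ℂ) := by
      ext z; simp [Polynomial.mem_rootSet, hv0]
    rw [this]; exact v.rootSet_finite ℂ
  have hE : {w : ℂ | ‖w‖ = 1 ∧ v.eval (tau a w) = 0}.Finite := by
    refine (hfin.image fun x => (x - a) / (1 - conj a * x)).subset ?_
    rintro w ⟨hw, h0⟩
    exact ⟨tau a w, h0, (tau_inv ha hw.le).symm⟩
  obtain ⟨-, h2⟩ := hfat (fun w => 2 * (q.eval (tau a w) / v.eval (tau a w)) - 1)
    (fun w => (r.eval (tau a w)).re) _ hE (by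
      intro w hw
      have hw' : ‖w‖ < 1 := by simpa using hw
      have hd := tau_diff ha hw'.le
      exact ((((q.differentiable.differentiableAt).comp w hd).div
        ((v.differentiable.differentiableAt).comp w hd)
        (hv _ (tau_lt ha hw'))).const_mul 2 |>.sub_const 1).differentiableWithinAt)
    (fun w hw => re_ge (hv _ (tau_lt ha hw)) (mxp hq hle _ (tau_lt ha hw).le)) (by
      intro w hw hwE
      have hw0 : v.eval (tau a w) ≠ 0 := fun h => hwE ⟨hw, h⟩
      have hct : ContinuousAt (fun t : ℝ => tau a (t * w)) 1 := by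
        have h1 : ContinuousAt (tau a) (((1 : ℝ) : ℂ) * w) := by
          simpa using (tau_diff ha hw.le).continuousAt
        exact ContinuousAt.comp (f := fun t : ℝ => (t : ℂ) * w) h1 (by fun_prop)
      have hc : ContinuousAt (fun t : ℝ => (2 * (q.eval (tau a (t * w)) /
          v.eval (tau a (t * w))) - 1 : ℂ).re) 1 := by
        apply Complex.continuous_re.continuousAt.comp
        have h1 : ContinuousAt (fun t : ℝ => q.eval (tau a (t * w))) 1 :=
          q.continuous.continuousAt.comp hct
        have h2 : ContinuousAt (fun t : ℝ => v.eval (tau a (t * w))) 1 :=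
          v.continuous.continuousAt.comp hct
        exact (((h1.div h2 (by simpa using hw0)).const_mul 2).sub continuousAt_const)
      have ht := hc.tendsto
      simp only [Complex.ofReal_one, one_mul] at ht
      have e : (2 * (q.eval (tau a w) / v.eval (tau a w)) - 1 : ℂ).re = (r.eval (tau a w)).re := by
        rw [hr _ (tau_eq ha hw) hw0]
        simp
      rw [e] at ht
      exact ht.mono_left nhdsWithin_le_nhds)
  have hdc : DiffContOnCl ℂ (fun w => r.eval (tau a w)) (ball 0 |1|) := by
    have hcl : closure (ball (0 : ℂ) 1) = closedBall 0 1 := closure_ball 0 one_ne_zero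
    rw [abs_one]
    constructor
    · intro w hw
      have hw' : ‖w‖ ≤ 1 := by simpa using (mem_ball.mp hw).le
      exact ((r.differentiable.differentiableAt).comp w (tau_diff ha hw')).differentiableWithinAt
    · rw [hcl]
      intro w hw
      have hw' : ‖w‖ ≤ 1 := by simpa using hw
      exact ((r.differentiable.differentiableAt).comp w
        (tau_diff ha hw')).continuousAt.continuousWithinAt
  have h3 : Real.circleAverage (fun w => r.eval (tau a w)) 0 1 = r.eval a := by
    rw [hdc.circleAverage, tau_zero]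
  have h4 : Real.circleAverage (fun w => (r.eval (tau a w)).re) 0 1 = (r.eval a).re := by
    have hint : CircleIntegrable (fun w => r.eval (tau a w)) 0 1 := by
      apply ContinuousOn.circleIntegrable zero_le_one
      intro w hw
      have hw' : ‖w‖ ≤ 1 := by simpa using (mem_sphere.mp hw).le
      exact ((r.differentiable.differentiableAt).comp w
        (tau_diff ha hw')).continuousAt.continuousWithinAt
    have := Complex.reCLM.circleAverage_comp_comm hint
    rw [h3] at this
    exact this
  rw [h4] at h2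
  simpa [tau_zero] using h2

end Pool.Agent.B5.H29
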