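import Pool.Agent.Lib.MP_b5021c_nt.IfaceE3V
import Pool.Agent.Lib.MP_b5021c_nt.E2.H65.Trm
import Pool.Agent.Lib.MP_b5021c_nt.E2.H65.Tro
import Pool.Agent.Lib.MP_b5021c_nt.B.H07.Zfi

/-! Board b5, chapter E3V, rows TRG, TRV (helper29). -/

namespace Pool.Agent.B5.H29

open Polynomial Pool.Agent.B5
open scoped LaurentPolynomial Topology ComplexConjugate

/-- (TRG), proof of helper65's TRM. -/
theorem trg (hFD : FDS) (hMm : MmulS) (hMV : MVS) (hDus : DusS) (hTpf : TpfS)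
    (hTpm : TpmS) : TrgS := by
  intro O _ _ _ _ P L _ _ _ _ _ phi D S eta hDD hrk hS hCV hci
  set Q : RO O := D.coeff 0 with hQ
  set V : RO O := D.coeff 0 + (eta : RO O) * D.coeff S with hV
  obtain ⟨hV0, hMV1⟩ := (hMV O).1 1 V hCV
  have hex : ∃ i0 : P, co phi i0 S = 1 := by
    by_contra hno
    push Not at hno
    apply hS.2.1
    apply hDD.inj
    rw [map_zero]
    funext i
    rcases hDD.bin S hS.1 i with h | h
    · exact h
    · exact absurd h (hno i)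
  obtain ⟨i0, h⟩ := hex
  have hCC : CC phi D S i0 eta := ⟨hDD, hrk, hS, h, hV0⟩
  obtain ⟨c, n, G, hF⟩ := hFD O P L phi D S i0 eta h hCC
  have hsmall : ∀ i, ¬ 1 < M ((G i).coeff 0) :=
    H65.not_big hMm c (fun i => (G i).coeff 0) V hF.v00 hV0 hMV1
  obtain ⟨b, f, e, hu, hG, hdual⟩ := hDus O P L phi D S i0 eta h c n G hF hsmall
  obtain ⟨lam, hT, hrank⟩ := hTpf O P L phi D S i0 eta h c n G hF b f e hu hG hdual
  obtain ⟨T, hT0, hTn, hsum, hrk2⟩ := hTpm O (Ker (co phi i0)) 1 lam _ V n b f e hT hCV hci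
  refine ⟨i0, n, f, T, hT0, hTn, by omega, ?_⟩
  intro z hz
  have h1 := hsum z hz
  rw [Nat.cast_one] at h1
  have h2 : (res (Ker (co phi i0)) D).coeff 0 = Q := res_coeff _ D 0
  rw [h2] at h1
  linarith

theorem trv (hTrg : TrgS) (hPai : PaiS) (hPav : PavS) (hPmf : PmfS) (hSnt : SntS)
    (hE2 : E2S) (hEv : EvRS) : TrvS := by
  intro O _ _ _ _ P L _ _ _ _ _ phi D S eta m q v hDD hrk hS hq hv hqz hvz hv1 a ha
  obtain ⟨hEv1, hEv2, hEv3, hEv4⟩ := hEv O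
  obtain ⟨hQ0, -, -, -, -, hray⟩ := hE2 O P L phi D hDD hrk
  obtain ⟨hle, -⟩ := hray S hS
  set Q : RO O := D.coeff 0 with hQ
  set V : RO O := D.coeff 0 + (eta : RO O) * D.coeff S with hV
  set qc : ℂ[X] := q.map Coef.emb with hqc
  set vc : ℂ[X] := v.map Coef.emb with hvc
  have evq : ∀ z : Circle, evR z Q = (z : ℂ) ^ m * qc.eval (z : ℂ) := fun z => by
    rw [hq, map_mul, H07.evR_T, H07.evR_toLaurent, hqc, eval_map]
  have evv : ∀ z : Circle, evR z V = (z : ℂ) ^ m * vc.eval (z : ℂ) := fun z => by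
    rw [hv, map_mul, H07.evR_T, H07.evR_toLaurent, hvc, eval_map]
  have hzm : ∀ z : Circle, ‖(z : ℂ) ^ m‖ = 1 := fun z => by simp
  have hzm0 : ∀ z : Circle, (z : ℂ) ^ m ≠ 0 := fun z => by
    rw [← norm_pos_iff, hzm]; norm_num
  have mk : ∀ z : ℂ, ‖z‖ = 1 → ∃ w : Circle, (w : ℂ) = z := fun z hz =>
    ⟨⟨z, by simpa [Submonoid.unitSphere] using hz⟩, rfl⟩
  have hqn : ∀ z : ℂ, ‖z‖ ≤ 1 → qc.eval z ≠ 0 := by
    intro z hz
    rcases hz.lt_or_eq with h | h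
    · exact hqz z h
    · obtain ⟨w, rfl⟩ := mk z h
      intro h0
      exact hQ0 w (by rw [evq, h0, mul_zero])
  have hlq : ∀ z : ℂ, ‖z‖ = 1 → ‖vc.eval z - qc.eval z‖ ≤ ‖qc.eval z‖ := by
    intro z hz
    obtain ⟨w, rfl⟩ := mk z hz
    have h1 : V - Q = (eta : RO O) * D.coeff S := by rw [hV, hQ]; ring
    have h2 : ‖evR w (V - Q)‖ ≤ ‖evR w Q‖ := by
      rw [h1, map_mul, norm_mul, hEv2 w _ eta.isUnit, one_mul]
      exact hle w
    rw [map_sub, evq, evv, ← mul_sub, norm_mul, norm_mul, hzm, one_mul, one_mul] at h2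
    exact h2
  have hCV : ClassV 1 V := ⟨le_rfl, m, v, hv, hv1, hvz⟩
  have hquot : ∀ z : ℂ, ‖z‖ = 1 → evL z Q / evL z V = qc.eval z / vc.eval z := by
    intro z hz
    obtain ⟨w, rfl⟩ := mk z hz
    rw [hEv1, hEv1, evq, evv, mul_div_mul_left _ _ (hzm0 w)]
  have hci : CircleIntegrable (fun z => (evL z Q / evL z V).re) 0 1 := by
    refine (circleIntegrable_congr fun z hz => ?_).mpr (hPai qc vc hqn hvz hlq)
    have hz1 : ‖z‖ = 1 := by simpa using hz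
    simp only [hquot z hz1]
  obtain ⟨i0, n, f, T, hT0, hTn, hrank, hsum⟩ := hTrg O P L phi D S eta hDD hrk hS hCV hci
  have hrs : rsh (∑ i, (T i).coeff 0) = ∑ i, (T i).coeff 0 := by
    rw [map_sum]
    exact Finset.sum_congr rfl fun i _ => H65.rsh_coeff0 (T i) (hTn i).1
  have ha1 : ‖a‖ < 1 := by linarith
  obtain ⟨r, -, hr1, hr2, -⟩ := hPmf O (∑ i, (T i).coeff 0) a ha1 hrs
  have hkey := hPav qc vc r a hqn hvz hlq ha1 (by
    intro z hz hvz0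
    obtain ⟨w, rfl⟩ := mk z hz
    have hV0 : evR w V ≠ 0 := by
      rw [evv]; exact mul_ne_zero (hzm0 w) hvz0
    have h1 := hsum w hV0
    rw [hr1 w] at h1
    rw [h1, evq, evv, mul_div_mul_left _ _ (hzm0 w)])
  rw [← hr2, H65.pmn_sum hEv1 a ha1] at hkey
  have hsn : ∀ i, 1 + (rk (supp (T i)) : ℝ) ≤ pmn a ((T i).coeff 0) := fun i =>
    hSnt O (Ker (f i)) (T i) (hT0 i) (hTn i) a ha
  have h5 : (Module.finrank ℤ L : ℝ) ≤ 1 + ∑ i, (1 + (rk (supp (T i)) : ℝ)) := by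
    exact_mod_cast hrank
  have h6 : ∑ i, (1 + (rk (supp (T i)) : ℝ)) ≤ ∑ i, pmn a ((T i).coeff 0) :=
    Finset.sum_le_sum fun i _ => hsn i
  linarith

end Pool.Agent.B5.H29
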