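import Pool.Agent.Lib.MP_b5021c_nt.IfaceE3V
import Pool.Agent.Lib.MP_b5021c_nt.E.H03.T03
import Pool.Agent.Lib.MP_b5021c_nt.B.H93.Nd3
import Pool.Agent.Lib.MP_b5021c_nt.E.H29.Pav

/-! Board b5, chapter E3V, part (A): rows ND3V, UM3V, T03V (helper29). -/

namespace Pool.Agent.B5.H29

open Polynomial Metric Pool.Agent.B5
open scoped Topology ComplexConjugate LaurentPolynomial
open Pool.Agent.MP_b5021c_nt (nz)

/-- minimum principle: `Re (F/q) ≥ 0` on the circle and `F = 0` at a point of the disc. -/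
lemma minp {q F : ℂ[X]} (hq : ∀ z : ℂ, ‖z‖ ≤ 1 → q.eval z ≠ 0)
    (hre : ∀ z : ℂ, ‖z‖ = 1 → 0 ≤ (F.eval z * (starRingEnd ℂ) (q.eval z)).re)
    {s : ℂ} (hs : ‖s‖ < 1) (hF : F.eval s = 0) : F = 0 := by
  have hcl : closure (ball (0 : ℂ) 1) = closedBall 0 1 := closure_ball 0 one_ne_zero
  have hdf : ∀ w : ℂ, ‖w‖ ≤ 1 → DifferentiableAt ℂ (fun w : ℂ => F.eval w / q.eval w) w := by
    intro w hw
    exact F.differentiable.differentiableAt.div q.differentiable.differentiableAt (hq w hw)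
  have hd : DiffContOnCl ℂ (fun w : ℂ => Complex.exp (-(F.eval w / q.eval w))) (ball 0 1) := by
    constructor
    · intro w hw
      have hw' : ‖w‖ ≤ 1 := by simpa using (mem_ball.mp hw).le
      exact ((hdf w hw').neg.cexp).differentiableWithinAt
    · rw [hcl]
      intro w hw
      have hw' : ‖w‖ ≤ 1 := by simpa using hw
      exact ((hdf w hw').neg.cexp).continuousAt.continuousWithinAt
  have hsb : s ∈ ball (0 : ℂ) 1 := by simpa using hs
  have hle : ∀ w ∈ ball (0 : ℂ) 1, ‖Complex.exp (-(F.eval w / q.eval w))‖ ≤ 1 := by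
    intro w hw
    refine Complex.norm_le_of_forall_mem_frontier_norm_le isBounded_ball hd (C := 1) ?_
      (subset_closure hw)
    intro u hu
    rw [frontier_ball (0 : ℂ) one_ne_zero] at hu
    have hu' : ‖u‖ = 1 := by simpa using hu
    rw [Complex.norm_exp, Complex.neg_re]
    have h1 := hre u hu'
    have hp : 0 < Complex.normSq (q.eval u) := Complex.normSq_pos.mpr (hq u hu'.le)
    have h2 : (F.eval u / q.eval u).re =
        (F.eval u * (starRingEnd ℂ) (q.eval u)).re / Complex.normSq (q.eval u) := by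
      rw [Complex.div_re, Complex.mul_re, Complex.conj_re, Complex.conj_im]
      field_simp
      ring
    have h3 : 0 ≤ (F.eval u / q.eval u).re := by
      rw [h2]
      exact div_nonneg h1 hp.le
    exact Real.exp_le_one_iff.mpr (by linarith)
  have hmax : IsMaxOn (norm ∘ fun w : ℂ => Complex.exp (-(F.eval w / q.eval w))) (ball 0 1) s := by
    intro w hw
    show ‖Complex.exp (-(F.eval w / q.eval w))‖ ≤ ‖Complex.exp (-(F.eval s / q.eval s))‖
    rw [hF, zero_div, neg_zero, Complex.exp_zero, norm_one]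
    exact hle w hw
  have heq := Complex.eqOn_of_isPreconnected_of_isMaxOn_norm
    (convex_ball (0 : ℂ) 1).isPreconnected isOpen_ball hd.differentiableOn hsb hmax
  have hder : ∀ w ∈ ball (0 : ℂ) 1, deriv (fun w : ℂ => F.eval w / q.eval w) w = 0 := by
    intro w hw
    have hw' : ‖w‖ ≤ 1 := by simpa using (mem_ball.mp hw).le
    have h1 : (fun w : ℂ => Complex.exp (-(F.eval w / q.eval w))) =ᶠ[𝓝 w] fun _ =>
        Complex.exp (-(F.eval s / q.eval s)) := by
      filter_upwards [isOpen_ball.mem_nhds hw] with u hu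
      exact heq hu
    have h2 := h1.deriv_eq
    rw [deriv_const] at h2
    have h3 : HasDerivAt (fun w : ℂ => Complex.exp (-(F.eval w / q.eval w)))
        (Complex.exp (-(F.eval w / q.eval w)) * -(deriv (fun w : ℂ => F.eval w / q.eval w) w)) w :=
      ((hdf w hw').hasDerivAt.neg).cexp
    rw [h3.deriv] at h2
    rcases mul_eq_zero.mp h2 with h4 | h4
    · exact absurd h4 (Complex.exp_ne_zero _)
    · simpa using h4
  have hconst : ∀ w ∈ ball (0 : ℂ) 1, F.eval w / q.eval w = 0 := by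
    intro w hw
    have h1 := isOpen_ball.is_const_of_deriv_eq_zero (convex_ball (0 : ℂ) 1).isPreconnected
      (f := fun w : ℂ => F.eval w / q.eval w)
      (fun u hu => (hdf u (by simpa using (mem_ball.mp hu).le)).differentiableWithinAt)
      (fun u hu => hder u hu) hw hsb
    simpa [hF] using h1
  apply Polynomial.eq_zero_of_infinite_isRoot
  have hinf : (ball (0 : ℂ) 1).Infinite := by
    apply infinite_of_mem_nhds (0 : ℂ)
    exact isOpen_ball.mem_nhds (by simp)
  refine hinf.mono fun w hw => ?_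
  have hw' : ‖w‖ ≤ 1 := by simpa using (mem_ball.mp hw).le
  rcases div_eq_zero_iff.mp (hconst w hw) with h | h
  · exact h
  · exact absurd h (hq w hw')

/-- (ND3V). -/
theorem nd3v : Nd3vS := by
  intro q v z0 hq hre hv hz0 hdiv
  obtain ⟨v1, rfl⟩ := hdiv
  have hz00 : z0 ≠ 0 := by
    intro h; rw [h] at hz0; simp at hz0
  have hv1 : v1 ≠ 0 := by
    rintro rfl; simp at hv
  set F : ℂ[X] := C (-z0) * (X * v1) with hF
  have hF0 : F ≠ 0 := by
    rw [hF]
    exact mul_ne_zero (by simpa using hz00) (mul_ne_zero X_ne_zero hv1)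
  have hFe : ∀ z : ℂ, F.eval z = -z0 * (z * v1.eval z) := by
    intro z; simp [hF]
  have hve : ∀ z : ℂ, ‖z‖ = 1 → ((X - C z0) ^ 2 * v1).eval z =
      ((‖z - z0‖ ^ 2 : ℝ) : ℂ) * F.eval z := by
    intro z hz
    rw [eval_mul, eval_pow, eval_sub, eval_X, eval_C, H93.sq_circle z z0 hz hz0, hFe]
    ring
  have hne : ∀ z : ℂ, ‖z‖ = 1 → z ≠ z0 →
      0 ≤ (F.eval z * (starRingEnd ℂ) (q.eval z)).re := by
    intro z hz hzz
    have h := hre z hz
    rw [hve z hz, mul_assoc, Complex.re_ofReal_mul] at h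
    have hp : 0 < ‖z - z0‖ ^ 2 := by
      have : 0 < ‖z - z0‖ := norm_pos_iff.mpr (sub_ne_zero.mpr hzz)
      positivity
    exact nonneg_of_mul_nonneg_right h hp
  have hall : ∀ z : ℂ, ‖z‖ = 1 → 0 ≤ (F.eval z * (starRingEnd ℂ) (q.eval z)).re := by
    intro z hz
    by_cases hzz : z = z0
    · subst hzz
      let g : ℝ → ℂ := fun t => z * Complex.exp (t * Complex.I)
      have hg : Continuous g := by fun_prop
      have hcont : Continuous fun t : ℝ =>
          (F.eval (g t) * (starRingEnd ℂ) (q.eval (g t))).re := by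
        have h1 : Continuous fun t : ℝ => F.eval (g t) := F.continuous.comp hg
        have h2 : Continuous fun t : ℝ => (starRingEnd ℂ) (q.eval (g t)) :=
          Complex.continuous_conj.comp (q.continuous.comp hg)
        exact Complex.continuous_re.comp (h1.mul h2)
      have hlim : Filter.Tendsto (fun t : ℝ =>
          (F.eval (g t) * (starRingEnd ℂ) (q.eval (g t))).re) (nhdsWithin 0 (Set.Ioi 0))
          (nhds ((F.eval (g 0) * (starRingEnd ℂ) (q.eval (g 0))).re)) :=
        (hcont.tendsto 0).mono_left nhdsWithin_le_nhds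
      have hg0 : g 0 = z := by simp [g]
      rw [hg0] at hlim
      refine ge_of_tendsto hlim ?_
      have hIoo : Set.Ioo (0 : ℝ) 1 ∈ nhdsWithin (0 : ℝ) (Set.Ioi 0) :=
        Ioo_mem_nhdsGT one_pos
      filter_upwards [hIoo] with t ht
      apply hne
      · simp [g, hz, Complex.norm_exp_ofReal_mul_I]
      · intro h
        have h1 : Complex.exp (t * Complex.I) = 1 := by
          have : z * Complex.exp (t * Complex.I) = z * 1 := by simpa [g] using h
          exact mul_left_cancel₀ hz00 this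
        have h2 : (Complex.exp (t * Complex.I)).im = 0 := by rw [h1]; simp
        rw [Complex.exp_ofReal_mul_I_im] at h2
        have h3 : 0 < Real.sin t :=
          Real.sin_pos_of_pos_of_lt_pi ht.1 (ht.2.trans (by linarith [Real.pi_gt_three]))
        linarith
    · exact hne z hz hzz
  exact hF0 (minp hq hall (s := 0) (by simp) (by rw [hFe]; ring))

/-- (UM3V). -/
theorem um3v : Um3vS := by
  intro q b hq hb hv s hs hbs
  apply hb
  have h0 : (-b) = 0 := by
    refine minp (F := -b) hq ?_ hs (by rw [eval_neg, hbs, neg_zero])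
    intro z hz
    have h1 := hv z hz
    have hvz : (q + b).eval z = q.eval z - (-b).eval z := by simp
    rw [hvz] at h1
    set x := q.eval z
    set y := (-b).eval z
    have h2 : ‖x - y‖ ^ 2 = ‖x‖ ^ 2 - 2 * (y * (starRingEnd ℂ) x).re + ‖y‖ ^ 2 := by
      rw [← Complex.normSq_eq_norm_sq, ← Complex.normSq_eq_norm_sq, ← Complex.normSq_eq_norm_sq]
      simp only [Complex.normSq_apply, Complex.sub_re, Complex.sub_im, Complex.mul_re,
        Complex.conj_re, Complex.conj_im]
      ring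
    have h3 : (x * (starRingEnd ℂ) (x - y)).re = ‖x‖ ^ 2 - (y * (starRingEnd ℂ) x).re := by
      rw [← Complex.normSq_eq_norm_sq]
      simp only [Complex.normSq_apply, map_sub, Complex.mul_re, Complex.sub_re, Complex.sub_im,
        Complex.conj_re, Complex.conj_im]
      ring
    rw [h2, h3] at h1
    have h4 : 0 ≤ ‖y‖ ^ 2 := sq_nonneg _
    linarith
  exact neg_eq_zero.mp h0

/-- (T03V). -/
theorem t03v (hNr : Nr3S) (hHp : Hp3S) : T03vS := by
  intro O _ _ _ _ t q b ht0 hnn hq hvz hle hyp h3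
  by_contra hne
  obtain ⟨-, hco, hor⟩ := hNr O t ht0 hnn
  have ht2 : 2 ≤ (Coef.emb (t.coeff 0) : ℂ).re := by
    rcases hor with h | h
    · exact absurd h hne
    · exact h
  set t0 : ℝ := (Coef.emb (t.coeff 0) : ℂ).re with ht0def
  obtain ⟨n, hre⟩ := H03.re_evR t (fun k hk => (hco k hk).2)
  set tp : ℂ[X] := H03.tpl t n with htp
  set qc : ℂ[X] := q.map (Coef.emb : O →+* ℂ) with hqcdef
  set bc : ℂ[X] := b.map (Coef.emb : O →+* ℂ) with hbcdef
  set vc : ℂ[X] := (q + b).map (Coef.emb : O →+* ℂ) with hvcdef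
  have hvc : vc = qc + bc := by rw [hvcdef, Polynomial.map_add]
  set W : ℂ[X] := C 2 * qc - vc - (C (t0 : ℂ) + C 2 * tp) * vc with hW
  have hWe : ∀ s : ℂ, W.eval s = 2 * qc.eval s - vc.eval s - (t0 + 2 * tp.eval s) * vc.eval s := by
    intro s
    rw [hW]
    simp only [eval_sub, eval_mul, eval_add, eval_C]
  have hWre : ∀ s : ℂ, (W.eval s * (starRingEnd ℂ) (vc.eval s)).re =
      2 * (qc.eval s * (starRingEnd ℂ) (vc.eval s)).re - ‖vc.eval s‖ ^ 2 -
        (t0 + 2 * (tp.eval s).re) * ‖vc.eval s‖ ^ 2 := by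
    intro s
    have h4 : vc.eval s * (starRingEnd ℂ) (vc.eval s) = ((‖vc.eval s‖ ^ 2 : ℝ) : ℂ) := by
      rw [Complex.mul_conj, Complex.normSq_eq_norm_sq]
    have h5 : W.eval s * (starRingEnd ℂ) (vc.eval s) =
        ((2 : ℝ) : ℂ) * (qc.eval s * (starRingEnd ℂ) (vc.eval s)) -
          ((‖vc.eval s‖ ^ 2 : ℝ) : ℂ) -
          (t0 + ((2 : ℝ) : ℂ) * tp.eval s) * ((‖vc.eval s‖ ^ 2 : ℝ) : ℂ) := by
      rw [← h4, hWe]
      push_cast
      ring
    rw [h5, Complex.sub_re, Complex.sub_re, Complex.re_ofReal_mul, Complex.ofReal_re,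
      Complex.re_mul_ofReal, Complex.add_re, Complex.ofReal_re, Complex.re_ofReal_mul]
  set C0 : ℝ := t0 + 2 * ∑ k ∈ Finset.range n, ‖(Coef.emb (t.coeff ((k : ℤ) + 1)) : ℂ)‖ with hC0
  have key := hHp vc W C0 hvz ?_ ?_
  · rw [hWre 0] at key
    have h6 : (tp.eval 0).re = 0 := by
      rw [← coeff_zero_eq_eval_zero, htp, H03.tpl_coeff_zero, Complex.zero_re]
    rw [h6] at key
    have h7 : qc.eval 0 = vc.eval 0 - bc.eval 0 := by rw [hvc, eval_add]; ring
    have h8 : (qc.eval 0 * (starRingEnd ℂ) (vc.eval 0)).re =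
        ‖vc.eval 0‖ ^ 2 - (bc.eval 0 * (starRingEnd ℂ) (vc.eval 0)).re := by
      rw [h7, sub_mul, Complex.sub_re, Complex.mul_conj, Complex.normSq_eq_norm_sq,
        Complex.ofReal_re]
    rw [h8] at key
    have h9 := Complex.abs_re_le_norm (bc.eval 0 * (starRingEnd ℂ) (vc.eval 0))
    rw [norm_mul, Complex.norm_conj] at h9
    have h10 := (abs_le.mp h9).1
    have e1 : ‖(Coef.emb (b.coeff 0) : ℂ)‖ = ‖bc.eval 0‖ := by
      rw [← coeff_zero_eq_eval_zero, hbcdef, coeff_map]
    have e2 : ‖(Coef.emb ((q + b).coeff 0) : ℂ)‖ = ‖vc.eval 0‖ := by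
      rw [← coeff_zero_eq_eval_zero, hvcdef, coeff_map]
    rw [e1, e2] at h3
    have hb0 := norm_nonneg (bc.eval 0)
    have hv0 : 0 < ‖vc.eval 0‖ := by linarith
    nlinarith [mul_pos hv0 hv0, mul_lt_mul_of_pos_right h3 hv0]
  · intro s hs
    rw [hWre s]
    have h1 := mxp (q := qc) (v := vc) hq (fun z hz => by
      rw [hvc, eval_add, add_sub_cancel_left]
      exact hle z hz) s hs.le
    have h2 : 0 ≤ 2 * (qc.eval s * (starRingEnd ℂ) (vc.eval s)).re - ‖vc.eval s‖ ^ 2 := by
      have h4 : ‖vc.eval s - qc.eval s‖ ^ 2 ≤ ‖qc.eval s‖ ^ 2 :=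
        pow_le_pow_left₀ (norm_nonneg _) h1 2
      have h5 : ‖vc.eval s - qc.eval s‖ ^ 2 = ‖vc.eval s‖ ^ 2 -
          2 * (qc.eval s * (starRingEnd ℂ) (vc.eval s)).re + ‖qc.eval s‖ ^ 2 := by
        rw [← Complex.normSq_eq_norm_sq, ← Complex.normSq_eq_norm_sq, ← Complex.normSq_eq_norm_sq]
        simp only [Complex.normSq_apply, Complex.sub_re, Complex.sub_im, Complex.mul_re,
          Complex.conj_re, Complex.conj_im]
        ring
      linarith
    have h6 : (tp.eval s).re ≤ ∑ k ∈ Finset.range n, ‖(Coef.emb (t.coeff ((k : ℤ) + 1)) : ℂ)‖ := by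
      refine (Complex.re_le_norm _).trans ?_
      rw [htp, H03.tpl_eval]
      refine (norm_sum_le _ _).trans (Finset.sum_le_sum fun k _ => ?_)
      rw [norm_mul, norm_pow]
      exact mul_le_of_le_one_right (norm_nonneg _) (pow_le_one₀ (norm_nonneg _) hs.le)
    have h7 : 0 ≤ ‖vc.eval s‖ ^ 2 := sq_nonneg _
    nlinarith
  · intro s hs
    rw [hWre s]
    obtain ⟨w, rfl⟩ : ∃ w : Circle, (w : ℂ) = s := ⟨⟨s, mem_sphere_zero_iff_norm.mpr hs⟩, rfl⟩
    have h1 := hyp w
    have h2 := hre w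
    rw [h2] at h1
    linarith

end Pool.Agent.B5.H29
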