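import Pool.Agent.Lib.MP_b5021c_nt.E.H29.Pav

/-! Maximum principle for quotients of polynomials, denominator zero-free in the open disc
(helper29). -/

namespace Pool.Agent.B5.H29

open Polynomial Metric Pool.Agent.B5
open scoped Topology ComplexConjugate

lemma circ_ext {F G : ℂ → ℝ} (hF : Continuous F) (hG : Continuous G) {a : ℂ} (ha : ‖a‖ = 1)
    (h : ∀ z : ℂ, ‖z‖ = 1 → z ≠ a → F z ≤ G z) : F a ≤ G a := by
  have ha0 : a ≠ 0 := by
    rintro rfl
    simp at ha
  let g : ℝ → ℂ := fun t => a * Complex.exp (t * Complex.I)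
  have hg : Continuous g := by fun_prop
  have hg0 : g 0 = a := by simp [g]
  have h1 : Filter.Tendsto (fun t : ℝ => F (g t)) (nhdsWithin 0 (Set.Ioi 0)) (nhds (F a)) := by
    have := ((hF.comp hg).tendsto 0).mono_left (nhdsWithin_le_nhds (s := Set.Ioi (0 : ℝ)))
    rw [Function.comp_apply, hg0] at this
    exact this
  have h2 : Filter.Tendsto (fun t : ℝ => G (g t)) (nhdsWithin 0 (Set.Ioi 0)) (nhds (G a)) := by
    have := ((hG.comp hg).tendsto 0).mono_left (nhdsWithin_le_nhds (s := Set.Ioi (0 : ℝ)))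
    rw [Function.comp_apply, hg0] at this
    exact this
  refine le_of_tendsto_of_tendsto h1 h2 ?_
  have hIoo : Set.Ioo (0 : ℝ) 1 ∈ nhdsWithin (0 : ℝ) (Set.Ioi 0) := Ioo_mem_nhdsGT one_pos
  filter_upwards [hIoo] with t ht
  apply h
  · simp [g, ha, Complex.norm_exp_ofReal_mul_I]
  · intro h
    have h1 : Complex.exp (t * Complex.I) = 1 := by
      have : a * Complex.exp (t * Complex.I) = a * 1 := by simpa [g] using h
      exact mul_left_cancel₀ ha0 this
    have h2 : (Complex.exp (t * Complex.I)).im = 0 := by rw [h1]; simp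
    rw [Complex.exp_ofReal_mul_I_im] at h2
    have h3 : 0 < Real.sin t :=
      Real.sin_pos_of_pos_of_lt_pi ht.1 (ht.2.trans (by linarith [Real.pi_gt_three]))
    linarith

/-- `|R| ≤ |u|` on the circle, `u` zero-free in the open disc: `|R| ≤ |u|` in the disc. -/
lemma mpo (n : ℕ) : ∀ (u R : ℂ[X]), u.natDegree = n → ZF u →
    (∀ z : ℂ, ‖z‖ = 1 → ‖R.eval z‖ ≤ ‖u.eval z‖) →
      ∀ z : ℂ, ‖z‖ < 1 → ‖R.eval z‖ ≤ ‖u.eval z‖ := by
  induction n using Nat.strong_induction_on with
  | _ n ih =>
    intro u R hn hu hle z hz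
    have hu0 : u ≠ 0 := by
      rintro rfl
      exact hu 0 (by simp) (by simp)
    by_cases hc : ∀ w : ℂ, ‖w‖ = 1 → u.eval w ≠ 0
    · have hq : ∀ w : ℂ, ‖w‖ ≤ 1 → u.eval w ≠ 0 := by
        intro w hw
        rcases hw.lt_or_eq with h | h
        · exact hu w h
        · exact hc w h
      have := mxp (q := u) (v := u + R) hq (by
        intro w hw
        rw [eval_add, add_sub_cancel_left]
        exact hle w hw) z hz.le
      rwa [eval_add, add_sub_cancel_left] at this
    · push Not at hc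
      obtain ⟨a, ha, hua⟩ := hc
      have hRa : R.eval a = 0 := by
        have := hle a ha
        rw [hua, norm_zero] at this
        exact norm_le_zero_iff.mp this
      obtain ⟨u1, hu1⟩ := dvd_iff_isRoot.mpr hua
      obtain ⟨R1, hR1⟩ := dvd_iff_isRoot.mpr hRa
      have hu10 : u1 ≠ 0 := by
        rintro rfl
        exact hu0 (by rw [hu1, mul_zero])
      have hd : u1.natDegree < n := by
        rw [← hn, hu1, natDegree_mul (X_sub_C_ne_zero a) hu10, natDegree_X_sub_C]
        omega
      have key := ih _ hd u1 R1 rfl (by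
        intro s hs h0
        apply hu s hs
        rw [hu1, eval_mul, h0, mul_zero]) (by
        have hne : ∀ w : ℂ, ‖w‖ = 1 → w ≠ a → ‖R1.eval w‖ ≤ ‖u1.eval w‖ := by
          intro w hw hwa
          have h1 := hle w hw
          rw [hu1, hR1, eval_mul, eval_mul, norm_mul, norm_mul] at h1
          refine le_of_mul_le_mul_left h1 (norm_pos_iff.mpr ?_)
          rw [eval_sub, eval_X, eval_C]
          exact sub_ne_zero.mpr hwa
        intro w hw
        by_cases hwa : w = a
        · subst hwa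
          exact circ_ext (F := fun z => ‖R1.eval z‖) (G := fun z => ‖u1.eval z‖)
            R1.continuous.norm u1.continuous.norm hw hne
        · exact hne w hw hwa) z hz
      rw [hu1, hR1, eval_mul, eval_mul, norm_mul, norm_mul]
      exact mul_le_mul_of_nonneg_left key (norm_nonneg _)

/-- strict version -/
lemma mps {u R : ℂ[X]} (hu : ZF u) (hle : ∀ z : ℂ, ‖z‖ = 1 → ‖R.eval z‖ ≤ ‖u.eval z‖)
    (h0 : ‖R.eval 0‖ < ‖u.eval 0‖) (z : ℂ) (hz : ‖z‖ < 1) : ‖R.eval z‖ < ‖u.eval z‖ := by
  by_contra hcon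
  push Not at hcon
  have hall := mpo _ u R rfl hu hle
  have heqz : ‖R.eval z‖ = ‖u.eval z‖ := le_antisymm (hall z hz) hcon
  have hd : DifferentiableOn ℂ (fun w : ℂ => R.eval w / u.eval w) (ball 0 1) := by
    intro w hw
    have hw' : ‖w‖ < 1 := by simpa using hw
    exact (R.differentiable.differentiableAt.div u.differentiable.differentiableAt
      (hu w hw')).differentiableWithinAt
  have hzb : z ∈ ball (0 : ℂ) 1 := by simpa using hz
  have huz : 0 < ‖u.eval z‖ := norm_pos_iff.mpr (hu z hz)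
  have hmax : IsMaxOn (norm ∘ fun w : ℂ => R.eval w / u.eval w) (ball 0 1) z := by
    intro w hw
    have hw' : ‖w‖ < 1 := by simpa using hw
    show ‖R.eval w / u.eval w‖ ≤ ‖R.eval z / u.eval z‖
    rw [norm_div, norm_div, heqz, div_self huz.ne']
    exact (div_le_one (norm_pos_iff.mpr (hu w hw'))).mpr (hall w hw')
  have heq := Complex.eqOn_of_isPreconnected_of_isMaxOn_norm
    (convex_ball (0 : ℂ) 1).isPreconnected isOpen_ball hd hzb hmax
  have h1 : R.eval 0 / u.eval 0 = R.eval z / u.eval z := heq (by simp)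
  have h2 : ‖R.eval 0 / u.eval 0‖ = 1 := by
    rw [h1, norm_div, heqz, div_self huz.ne']
  rw [norm_div, div_eq_one_iff_eq (norm_pos_iff.mpr (hu 0 (by simp))).ne'] at h2
  exact absurd h2 h0.ne

end Pool.Agent.B5.H29
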