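import Pool.Agent.Lib.MP_b5021c_nt.IfaceE5
import Pool.Agent.Lib.MP_b5021c_nt.B.H88.LPA
import Pool.Agent.Lib.MP_b5021c_nt.B.H96.E3Em
import Pool.Agent.Lib.MP_b5021c_nt.K.H25.Bch
import Pool.Agent.Lib.MP_b5021c_nt.E.H29.Mp

/-! Board b5, chapter E5, row ZC5 (helper29). -/

namespace Pool.Agent.B5.H29

open Polynomial Pool.Agent.B5 Pool.Agent.B5.H96
open scoped Topology ComplexConjugate LaurentPolynomial
open Pool.Agent.MP_b5021c_nt (Eis nz)

lemma tl_uniq {O : Type} [CommRing O] [IsDomain O] {V q : O[X]} {n : ℤ}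
    (h : (toLaurent V : LaurentPolynomial O) = LaurentPolynomial.T n * toLaurent q)
    (hV : V.coeff 0 ≠ 0) (hq : q.coeff 0 ≠ 0) : V = q := by
  rcases le_total 0 n with hn | hn
  · obtain ⟨k, rfl⟩ := Int.eq_ofNat_of_zero_le hn
    have h1 : (toLaurent V : LaurentPolynomial O) = toLaurent (X ^ k * q) := by
      rw [h, map_mul, map_pow, toLaurent_X, LaurentPolynomial.T_pow, mul_one]
    have h2 := toLaurent_injective h1
    rcases Nat.eq_zero_or_pos k with hk | hk
    · rw [h2, hk, pow_zero, one_mul]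
    · exfalso
      apply hV
      rw [h2, mul_coeff_zero, coeff_X_pow, if_neg (by omega), zero_mul]
  · obtain ⟨k, hk⟩ := Int.eq_ofNat_of_zero_le (neg_nonneg.mpr hn)
    have h1 : (toLaurent q : LaurentPolynomial O) = toLaurent (X ^ k * V) := by
      rw [map_mul, map_pow, toLaurent_X, LaurentPolynomial.T_pow, mul_one, h, ← mul_assoc,
        ← LaurentPolynomial.T_add, ← hk, neg_add_cancel, LaurentPolynomial.T_zero, one_mul]
    have h2 := toLaurent_injective h1
    rcases Nat.eq_zero_or_pos k with hk | hk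
    · rw [h2, hk, pow_zero, one_mul]
    · exfalso
      apply hq
      rw [h2, mul_coeff_zero, coeff_X_pow, if_neg (by omega), zero_mul]

/-- The roots of an element of class `P`, from its polynomial. -/
lemma classP_poly {θ' : ℝ} {V : Eis[X]} (hV : V.coeff 0 ≠ 0) (h : ClassP θ' (toLaurent V : RO Eis)) :
    1 < θ' ∧ ‖Eis.emb (V.coeff 0)‖ = 1 ∧ ∃ w : ℂ, ‖w‖ = θ'⁻¹ ∧
      (V.map Eis.emb).roots.filter (fun x => ‖x‖ < 1) = {w} := by
  obtain ⟨h1, n, q, h2, h3, w, h4, h5⟩ := h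
  have hq : q.coeff 0 ≠ 0 := by
    intro h6
    rw [h6, map_zero, norm_zero] at h3
    exact zero_ne_one h3
  have h6 := tl_uniq h2 hV hq
  rw [h6]
  exact ⟨h1, h3, w, h4, h5⟩

lemma map_cast (q : ℤ[X]) :
    (q.map (Int.castRingHom Eis)).map Eis.emb = q.map (Int.castRingHom ℂ) := by
  rw [Polynomial.map_map]
  congr 1
  exact RingHom.ext_int _ _

/-- Everything about the load of type B of a medium ray. -/
lemma md_load (hLb : Lb5S) {θ : ℝ} {Q F : RO ℤ} {e : (RO ℤ)ˣ} {x : ℝ} {n : ℤ} {q f : ℤ[X]}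
    {s r : ℂ[X]} {T c : ℂ} (hθ : 1000000 ≤ θ) (hM : Md θ Q F e x n q f s r T c) :
    ‖c‖ = x ∧ ∃ θ' : ℝ, θ / 3 ≤ θ' ∧
      (12 / 10 < x → θ' ≤ θ - 12 / 10 + 1 / 10000) ∧
      (x ≤ 12 / 10 → θ' ≤ θ - x + 2 / θ ∧ (IsUnit ((f.map (Int.castRingHom Eis)).coeff 0) →
        θ' ≤ θ - x + x * (1 - x) / θ + 100 / θ ^ 2)) ∧
      ClassP θ' (Q + (e : RO ℤ) * F) ∧
      ∃ b : ℂ, ‖b‖ < 1 ∧ ((q + X * f).map (Int.castRingHom ℂ)).eval b = 0 := by
  obtain ⟨hQ, hF, hD, hcT, hTim, hcim, hx1, hx2⟩ := hM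
  have hθ0 : 0 < θ := by linarith
  have hcx : ‖c‖ = x := by
    have h1 := congrArg norm hcT
    rw [norm_mul, norm_mul, RCLike.norm_conj, hD.nT, Complex.norm_real, Complex.norm_real,
      Real.norm_eq_abs, Real.norm_eq_abs, abs_of_pos hθ0, abs_of_pos (by linarith)] at h1
    exact mul_right_cancel₀ hθ0.ne' (by rw [h1]; ring)
  have hcT' : c * (starRingEnd ℂ) T = (θ : ℂ) * ((x : ℂ) + ((0 : ℝ) : ℂ) * Complex.I) := by
    rw [hcT]; simp
  obtain ⟨L1, L2, -⟩ := hLb θ _ _ s r T c x 0 hθ hD hcT'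
  have hVE : q.map (Int.castRingHom Eis) + X * f.map (Int.castRingHom Eis) =
      (q + X * f).map (Int.castRingHom Eis) := by
    rw [Polynomial.map_add, Polynomial.map_mul, map_X]
  have hq1 : ‖((q.coeff 0 : ℤ) : ℂ)‖ = 1 := by
    have := hD.q0
    rw [coeff_map] at this
    simpa using this
  have hV0 : ((q + X * f).map (Int.castRingHom Eis)).coeff 0 ≠ 0 := by
    intro h
    rw [coeff_map, coeff_add, coeff_X_mul_zero, add_zero] at h
    have h2 : q.coeff 0 = 0 := by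
      have := (map_eq_zero_iff (Int.castRingHom Eis) (RingHom.injective_int _)).mp h
      exact this
    rw [h2] at hq1
    simp at hq1
  have main : ∀ θ' : ℝ, ClassP θ' (toLaurent (q.map (Int.castRingHom Eis) +
      X * f.map (Int.castRingHom Eis)) : RO Eis) → ClassP θ' (Q + (e : RO ℤ) * F) ∧
      ∃ b : ℂ, ‖b‖ < 1 ∧ ((q + X * f).map (Int.castRingHom ℂ)).eval b = 0 := by
    intro θ' h
    rw [hVE] at h
    obtain ⟨h1, h2, w, h3, h4⟩ := classP_poly hV0 h
    rw [map_cast] at h4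
    refine ⟨⟨h1, n, q + X * f, ?_, ?_, w, h3, h4⟩, w, ?_, ?_⟩
    · rw [hQ, hF, map_add, mul_add]
    · rw [coeff_add, coeff_X_mul_zero, add_zero]
      exact hq1
    · rw [h3]
      exact inv_lt_one_of_one_lt₀ h1
    · have h5 : w ∈ ((q + X * f).map (Int.castRingHom ℂ)).roots.filter (fun x => ‖x‖ < 1) := by
        rw [h4]; simp
      exact isRoot_of_mem_roots (Multiset.mem_of_mem_filter h5)
  refine ⟨hcx, ?_⟩
  rcases le_or_gt x (12 / 10) with hx | hx
  · obtain ⟨θ', h1, h2, h3, h4⟩ := L1 (by rw [hcx]; exact hx)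
    obtain ⟨h5, h6⟩ := main θ' h4
    refine ⟨θ', h1, fun h => absurd h (not_lt.mpr hx), fun _ => ⟨h2, fun hu => ?_⟩, h5, h6⟩
    have := h3 hu
    rw [hcx] at this
    simpa using this
  · obtain ⟨θ', h1, h2, h4⟩ := L2 (by rw [hcx]; exact hx.le) (by rw [hcx]; exact hx2)
    obtain ⟨h5, h6⟩ := main θ' h4
    refine ⟨θ', h1, fun _ => ?_, fun h => absurd h (not_le.mpr hx), h5, h6⟩
    have := h2 1 (by norm_num) le_rfl (by rw [hcx, one_mul])
    rw [hcx] at this
    have h7 : 12 / 10 ≤ min x 2 := le_min hx.le (by norm_num)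
    linarith

/-- The condition `Car`, on the circle. -/
lemma car_circ (hCa : Ca5S) {Q F : RO ℤ} {e : (RO ℤ)ˣ} {n : ℤ} {q f : ℤ[X]}
    (hQ : Q = LaurentPolynomial.T n * toLaurent q)
    (hF : (e : RO ℤ) * F = LaurentPolynomial.T n * toLaurent (X * f))
    (hc : Car Q ((e : RO ℤ) * F)) (z : ℂ) (hz : ‖z‖ = 1) :
    2 * ‖(f.map (Int.castRingHom ℂ)).eval z‖ * ‖((q + X * f).map (Int.castRingHom ℂ)).eval z‖ ≤
      ‖(q.map (Int.castRingHom ℂ)).eval z‖ ^ 2 - ‖(f.map (Int.castRingHom ℂ)).eval z‖ ^ 2 := by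
  obtain ⟨w, rfl⟩ : ∃ w : Circle, (w : ℂ) = z := ⟨⟨z, mem_sphere_zero_iff_norm.mpr hz⟩, rfl⟩
  have h1 := (hCa (evR w Q) (evR w ((e : RO ℤ) * F)) (by
    intro x y hx hy
    have := hc w x y hx hy
    rwa [map_add] at this)).1
  have eQ : evR w Q = (w : ℂ) ^ n * (q.map (Int.castRingHom ℂ)).eval (w : ℂ) := by
    rw [hQ]; exact ev_T_mul w n q
  have eF : evR w ((e : RO ℤ) * F) =
      (w : ℂ) ^ n * ((X * f).map (Int.castRingHom ℂ)).eval (w : ℂ) := by
    rw [hF]; exact ev_T_mul w n (X * f)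
  have eF' : ((X * f).map (Int.castRingHom ℂ)).eval (w : ℂ) =
      w * (f.map (Int.castRingHom ℂ)).eval (w : ℂ) := by
    rw [Polynomial.map_mul, map_X, eval_mul, eval_X]
  rw [eQ, eF, ← mul_add, norm_mul, norm_mul, norm_mul, norm_circle, one_mul, one_mul, one_mul] at h1
  have e3 : (q.map (Int.castRingHom ℂ)).eval (w : ℂ) +
      ((X * f).map (Int.castRingHom ℂ)).eval (w : ℂ) =
      ((q + X * f).map (Int.castRingHom ℂ)).eval (w : ℂ) := by
    rw [Polynomial.map_add, eval_add]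
  have e4 : ‖((X * f).map (Int.castRingHom ℂ)).eval (w : ℂ)‖ =
      ‖(f.map (Int.castRingHom ℂ)).eval (w : ℂ)‖ := by
    rw [eF', norm_mul, Circle.norm_coe, one_mul]
  rw [e3, e4] at h1
  exact h1

/-- `|(1 + sg z) f| ≤ |q - sg f|` on the circle. -/
lemma car_dbl {Q F : RO ℤ} {e : (RO ℤ)ˣ} {n : ℤ} {q f : ℤ[X]}
    (hQ : Q = LaurentPolynomial.T n * toLaurent q)
    (hF : (e : RO ℤ) * F = LaurentPolynomial.T n * toLaurent (X * f))
    (hc : Car Q ((e : RO ℤ) * F)) (σ : ℂ) (hσ : σ ^ 2 = 1) (z : ℂ) (hz : ‖z‖ = 1) :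
    ‖(1 + σ * z) * (f.map (Int.castRingHom ℂ)).eval z‖ ≤
      ‖(q.map (Int.castRingHom ℂ)).eval z - σ * (f.map (Int.castRingHom ℂ)).eval z‖ := by
  obtain ⟨w, rfl⟩ : ∃ w : Circle, (w : ℂ) = z := ⟨⟨z, mem_sphere_zero_iff_norm.mpr hz⟩, rfl⟩
  have hσn : ‖σ‖ = 1 := by
    have := congrArg norm hσ
    rw [norm_pow, norm_one] at this
    exact (pow_eq_one_iff_of_nonneg (norm_nonneg _) two_ne_zero).mp this
  have hw0 : (w : ℂ) ≠ 0 := Circle.coe_ne_zero w
  set a := evR w ((e : RO ℤ) * F) with ha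
  set b := evR w Q with hb
  have key : ∀ y : ℂ, ‖y‖ < 1 → ‖a * (1 - y)‖ ≤ ‖b + y * a‖ := by
    intro y hy
    by_contra hcon
    push Not at hcon
    have hne : a * (1 - y) ≠ 0 := by
      intro h
      rw [h, norm_zero] at hcon
      exact absurd (norm_nonneg _) (not_le.mpr hcon)
    have h1 := hc w (-((b + y * a) / (a * (1 - y)))) y (by
      rw [norm_neg, norm_div]
      exact (div_lt_one (norm_pos_iff.mpr hne)).mpr hcon) hy
    apply h1
    rw [map_add, ← ha, ← hb]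
    have h2 : (b + y * a) / (a * (1 - y)) * (a * (1 - y)) = b + y * a := div_mul_cancel₀ _ hne
    linear_combination -h2
  have hlim : ‖a * (1 + σ / w)‖ ≤ ‖b - σ / w * a‖ := by
    have h1 : Filter.Tendsto (fun t : ℝ => ‖a * (1 - (-(t * (σ / w))))‖) (nhdsWithin 1 (Set.Iio 1))
        (nhds ‖a * (1 + σ / w)‖) := by
      have hcont : Continuous fun t : ℝ => ‖a * (1 - (-((t : ℂ) * (σ / w))))‖ := by fun_prop
      have := (hcont.tendsto 1).mono_left (nhdsWithin_le_nhds (s := Set.Iio (1 : ℝ)))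
      simpa using this
    have h2 : Filter.Tendsto (fun t : ℝ => ‖b + -(t * (σ / w)) * a‖) (nhdsWithin 1 (Set.Iio 1))
        (nhds ‖b - σ / w * a‖) := by
      have hcont : Continuous fun t : ℝ => ‖b + -((t : ℂ) * (σ / w)) * a‖ := by fun_prop
      have := (hcont.tendsto 1).mono_left (nhdsWithin_le_nhds (s := Set.Iio (1 : ℝ)))
      simpa [sub_eq_add_neg] using this
    refine le_of_tendsto_of_tendsto h1 h2 ?_
    have hIoo : Set.Ioo (0 : ℝ) 1 ∈ nhdsWithin (1 : ℝ) (Set.Iio 1) := Ioo_mem_nhdsLT one_pos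
    filter_upwards [hIoo] with t ht
    apply key
    rw [norm_neg, norm_mul, norm_div, hσn, Circle.norm_coe, Complex.norm_real, Real.norm_eq_abs,
      abs_of_pos ht.1]
    simpa using ht.2
  have eQ : b = (w : ℂ) ^ n * (q.map (Int.castRingHom ℂ)).eval (w : ℂ) := by
    rw [hb, hQ]; exact ev_T_mul w n q
  have eF : a = (w : ℂ) ^ n * (w * (f.map (Int.castRingHom ℂ)).eval (w : ℂ)) := by
    rw [ha, hF]
    have := ev_T_mul w n (X * f)
    rw [Polynomial.map_mul, map_X, eval_mul, eval_X] at this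
    exact this
  have e1 : a * (1 + σ / w) = ((w : ℂ) ^ n * σ) *
      ((1 + σ * w) * (f.map (Int.castRingHom ℂ)).eval (w : ℂ)) := by
    rw [eF]
    field_simp
    linear_combination (-((f.map (Int.castRingHom ℂ)).eval (w : ℂ) * (w : ℂ))) * hσ
  have e2 : b - σ / w * a = (w : ℂ) ^ n * ((q.map (Int.castRingHom ℂ)).eval (w : ℂ) -
      σ * (f.map (Int.castRingHom ℂ)).eval (w : ℂ)) := by
    rw [eF, eQ]
    field_simp
  rw [e1, e2, norm_mul, norm_mul, norm_circle, hσn, one_mul, one_mul, norm_mul _ (_ - _),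
    norm_circle, one_mul] at hlim
  exact hlim

/-- The second alternative. -/
lemma zc_two (hPCZ : PCZS) {θ : ℝ} {Q F : RO ℤ} {e : (RO ℤ)ˣ} {x : ℝ} {n : ℤ} {q f : ℤ[X]}
    {s r : ℂ[X]} {T c : ℂ} (hθ : 1000000 ≤ θ) (hM : Md θ Q F e x n q f s r T c)
    (hc : Car Q ((e : RO ℤ) * F)) (hcx : ‖c‖ = x)
    (hxw : x ≤ 1 + 1 / (100 * θ)) (hfu : IsUnit (f.coeff 0))
    (hr : ‖r.eval 0‖ ≤ 42 / 100 * ‖s.eval 0‖)
    (hw : ‖(derivative r).eval 0 * s.eval 0 - r.eval 0 * (derivative s).eval 0‖ ≤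
      477 / 1000 * ‖s.eval 0‖ ^ 2)
    (hP : ∃ θ' : ℝ, ClassP θ' (Q + (e : RO ℤ) * F)) :
    ∃ (sg : ℤˣ) (u : ℤ[X]) (N : ℕ), T = ((sg : ℤ) : ℂ) * (θ : ℂ) ∧
        f.coeff 0 = (sg : ℤ) * q.coeff 0 ∧ q - C (sg : ℤ) * f = X * u ∧
        u.coeff 0 = -((sg : ℤ) * q.coeff 0 * N) ∧
        (∀ z : ℂ, ‖z‖ < 1 → (u.map (Int.castRingHom ℂ)).eval z ≠ 0) ∧
        (N : ℝ) ≤ θ + 49 / 100 ∧ |(N : ℝ) - x * θ| ≤ 477 / 1000 ∧
        (∀ eA : (RO ℤ)ˣ, (eA : RO ℤ) =
            -(LaurentPolynomial.C (sg : ℤ) * LaurentPolynomial.T (-1) * (e : RO ℤ)) →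
          Cross Q F eA e ∧ TypA N Q (Q + (eA : RO ℤ) * F)) ∧
        (2 ≤ N → ∀ z : ℂ, ‖z‖ < 1 →
          ((u + f + C (sg : ℤ) * X * f).map (Int.castRingHom ℂ)).eval z ≠ 0) := by
  obtain ⟨hQ, hF, hD, hcT, hTim, hcim, hx1, hx2⟩ := hM
  have hθ0 : 0 < θ := by linarith
  -- `q(0)` and `s(0)`
  have es0 : ((q.coeff 0 : ℤ) : ℂ) = s.eval 0 := by
    have := H88.eval_zero_s hD
    rw [coeff_map] at this
    rw [← this]
    simp
  have ef0 : ((f.coeff 0 : ℤ) : ℂ) = c * s.eval 0 + r.eval 0 := by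
    have := H88.eval_zero_f hD
    rw [coeff_map] at this
    rw [← this]
    simp
  have hq1 : ‖((q.coeff 0 : ℤ) : ℂ)‖ = 1 := by
    have := hD.q0
    rw [coeff_map] at this
    simpa using this
  have hqa : q.coeff 0 = 1 ∨ q.coeff 0 = -1 := by
    rw [Complex.norm_intCast] at hq1
    have h1 : |q.coeff 0| = 1 := by exact_mod_cast hq1
    rcases abs_eq (zero_le_one) |>.mp h1 with h | h
    · exact Or.inl h
    · exact Or.inr h
  have hqq : q.coeff 0 * q.coeff 0 = 1 := by rcases hqa with h | h <;> rw [h] <;> norm_num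
  have hs1 : ‖s.eval 0‖ = 1 := by rw [← es0]; exact hq1
  have hsne : s.eval 0 ≠ 0 := hD.s0 0 (by simp)
  have hss : s.eval 0 * s.eval 0 = 1 := by
    rw [← es0, ← Int.cast_mul, hqq, Int.cast_one]
  have hqu : IsUnit (q.coeff 0) := Int.isUnit_iff.mpr hqa
  obtain ⟨sg, hsg⟩ : ∃ sg : ℤˣ, sg = hfu.unit * hqu.unit := ⟨_, rfl⟩
  obtain ⟨σ, hσ⟩ : ∃ σ : ℤ, σ = (sg : ℤ) := ⟨_, rfl⟩
  have hσ1 : σ = 1 ∨ σ = -1 := by
    rw [hσ]
    exact Int.isUnit_iff.mp sg.isUnit
  have hσσ : σ * σ = 1 := by rcases hσ1 with h | h <;> rw [h] <;> norm_num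
  have hσfq : σ = f.coeff 0 * q.coeff 0 := by
    rw [hσ, hsg, Units.val_mul, IsUnit.unit_spec, IsUnit.unit_spec]
  have hf0 : f.coeff 0 = σ * q.coeff 0 := by
    rw [hσfq, mul_assoc, hqq, mul_one]
  have hσC : (σ : ℂ) * σ = 1 := by
    rw [← Int.cast_mul, hσσ, Int.cast_one]
  -- the sign of `c`
  have hcs : c * s.eval 0 + r.eval 0 = σ * s.eval 0 := by
    rw [← ef0, hf0, Int.cast_mul, es0]
  have hcd : ‖c - σ‖ ≤ 42 / 100 := by
    have h1 : (c - σ) * s.eval 0 = -r.eval 0 := by linear_combination hcs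
    have h2 := congrArg norm h1
    rw [norm_mul, hs1, mul_one, norm_neg] at h2
    rw [h2]
    rw [hs1, mul_one] at hr
    exact hr
  have hcr : c = ((c.re : ℝ) : ℂ) := by
    apply Complex.ext
    · simp
    · simp [hcim]
  have hcre : c.re = σ * x := by
    have h1 : |c.re| = x := by
      rw [← hcx, hcr, Complex.norm_real, Real.norm_eq_abs, ← hcr]
    have h2 : |c.re - σ| ≤ 42 / 100 := by
      have h3 := Complex.abs_re_le_norm (c - σ)
      rw [Complex.sub_re, Complex.intCast_re] at h3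
      exact h3.trans hcd
    obtain ⟨h4, h5⟩ := abs_le.mp h2
    rcases hσ1 with h | h
    · rw [h] at h4 h5 ⊢
      push_cast at h4 h5 ⊢
      rw [one_mul, ← h1, abs_of_pos (by linarith)]
    · rw [h] at h4 h5 ⊢
      push_cast at h4 h5 ⊢
      rw [← h1, abs_of_neg (by linarith)]
      ring
  have hcσ : c = (σ : ℂ) * (x : ℂ) := by
    rw [hcr, hcre]; push_cast; ring
  have hTr : (starRingEnd ℂ) T = T := Complex.conj_eq_iff_im.mpr hTim
  have hx0 : (0 : ℝ) < x := by linarith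
  have hTσ : T = (σ : ℂ) * (θ : ℂ) := by
    rw [hTr, hcσ] at hcT
    have h1 : (x : ℂ) ≠ 0 := by exact_mod_cast hx0.ne'
    apply mul_left_cancel₀ h1
    linear_combination (σ : ℂ) * hcT - (x : ℂ) * T * hσC
  -- `u`
  have hu0 : (q - C σ * f).coeff 0 = 0 := by
    rw [coeff_sub, coeff_C_mul, hf0, ← mul_assoc, hσσ, one_mul, sub_self]
  obtain ⟨u, hu⟩ := X_dvd_iff.mpr hu0
  obtain ⟨uc, huc⟩ : ∃ uc : ℂ[X], uc = u.map (Int.castRingHom ℂ) := ⟨_, rfl⟩
  have hmap : q.map (Int.castRingHom ℂ) - C (σ : ℂ) * f.map (Int.castRingHom ℂ) = X * uc := by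
    have h1 := congrArg (fun p : ℤ[X] => p.map (Int.castRingHom ℂ)) hu
    simp only [Polynomial.map_sub, Polynomial.map_mul, map_C, map_X] at h1
    rw [huc, ← h1]
    simp
  obtain ⟨v, hv⟩ : ∃ v : Eisˣ, v = Units.map (Int.castRingHom Eis).toMonoidHom (-sg) := ⟨_, rfl⟩
  have hvE : (v : Eis) = ((-σ : ℤ) : Eis) := by
    rw [hv, hσ]
    simp
  have hvC : Eis.emb (v : Eis) = -(σ : ℂ) := by
    rw [hvE]
    simp
  obtain ⟨-, -, hVne, hcard⟩ := H88.lpa_common hPCZ hD v
  have hVm : (q.map (Int.castRingHom Eis) + C (v : Eis) * f.map (Int.castRingHom Eis)).map Eis.emb =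
      X * uc := by
    rw [Polynomial.map_add, Polynomial.map_mul, map_C, map_cast, map_cast, hvC, ← hmap, C_neg]
    ring
  rw [hVm] at hVne hcard
  have hucne : uc ≠ 0 := by
    rintro h1
    rw [h1, mul_zero] at hVne
    exact hVne rfl
  have huz : ∀ z : ℂ, ‖z‖ < 1 → uc.eval z ≠ 0 := by
    intro z hz h1
    rw [roots_mul hVne, roots_X, Multiset.filter_add, Multiset.card_add] at hcard
    have h2 : 0 < (uc.roots.filter (fun x => ‖x‖ < 1)).card := by
      apply Multiset.card_pos_iff_exists_mem.mpr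
      refine ⟨z, ?_⟩
      rw [Multiset.mem_filter]
      exact ⟨(mem_roots hucne).mpr h1, hz⟩
    have h3 : (({0} : Multiset ℂ).filter (fun x => ‖x‖ < 1)).card = 1 := by
      rw [Multiset.filter_eq_self.mpr, Multiset.card_singleton]
      intro a ha
      rw [Multiset.mem_singleton] at ha
      rw [ha, norm_zero]
      exact one_pos
    omega
  -- the value of `u(0)`
  obtain ⟨w, hwd⟩ : ∃ w : ℂ, w = (derivative r).eval 0 * s.eval 0 - r.eval 0 * (derivative s).eval 0 :=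
    ⟨_, rfl⟩
  rw [← hwd, hs1, one_pow, mul_one] at hw
  have hqc : q.map (Int.castRingHom ℂ) = (1 - C T * X) * s := by
    rw [← map_cast]; exact hD.qs
  have hfc : f.map (Int.castRingHom ℂ) = C c * s + (1 - C T * X) * r := by
    rw [← map_cast]; exact hD.fs
  have huc0 : -((σ : ℂ) * s.eval 0) * uc.eval 0 = x * θ + w := by
    have h1 := hmap
    rw [hqc, hfc] at h1
    have h2 := congrArg (eval 0) h1
    simp only [eval_add, eval_mul, eval_sub, eval_one, eval_C, eval_X, zero_mul, mul_zero,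
      sub_zero, one_mul] at h2
    have h3 := congrArg (fun p : ℂ[X] => (derivative p).eval 0) h1
    simp only [derivative_add, derivative_mul, derivative_sub, derivative_one, derivative_C,
      derivative_X, eval_add, eval_mul, eval_sub, eval_one, eval_C, eval_X, zero_mul,
      mul_zero, sub_zero, one_mul, zero_add, add_zero, zero_sub, mul_one, eval_neg] at h3
    have h4 : uc.eval 0 * s.eval 0 = -(σ : ℂ) * (c * T * s.eval 0 ^ 2 +
        ((derivative r).eval 0 * s.eval 0 - r.eval 0 * (derivative s).eval 0)) := by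
      linear_combination (-(s.eval 0)) * h3 + ((derivative s).eval 0 - T * s.eval 0) * h2
    rw [← hwd, hcσ, hTσ] at h4
    linear_combination (-(σ : ℂ)) * h4 + ((x : ℂ) * θ * s.eval 0 ^ 2 * (σ * σ + 1) + w) * hσC +
      (x : ℂ) * θ * hss
  have hucZ : uc.eval 0 = ((u.coeff 0 : ℤ) : ℂ) := by
    rw [huc, ← coeff_zero_eq_eval_zero, coeff_map]
    simp
  obtain ⟨M', hM'⟩ : ∃ M' : ℤ, M' = -(σ * q.coeff 0) * u.coeff 0 := ⟨_, rfl⟩
  have hMc : (M' : ℂ) = x * θ + w := by
    rw [← huc0, hM', hucZ, ← es0]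
    push_cast
    ring
  have hMr : |(M' : ℝ) - x * θ| ≤ 477 / 1000 := by
    have h1 : ((((M' : ℝ) - x * θ : ℝ)) : ℂ) = w := by
      push_cast
      rw [hMc]
      ring
    rw [← Real.norm_eq_abs, ← Complex.norm_real, h1]
    exact hw
  obtain ⟨hMl, hMu⟩ := abs_le.mp hMr
  have hxθ : 980000 ≤ x * θ := by nlinarith
  have hMpos : (1 : ℝ) ≤ M' := by linarith
  have hM0 : 0 ≤ M' := by
    have : (0 : ℝ) ≤ (M' : ℝ) := by linarith
    exact_mod_cast this
  obtain ⟨N, hN⟩ := Int.eq_ofNat_of_zero_le hM0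
  have hNr : (M' : ℝ) = (N : ℝ) := by rw [hN]; simp
  have hxθ2 : x * θ ≤ θ + 1 / 100 := by
    have h1 : x * θ ≤ (1 + 1 / (100 * θ)) * θ := mul_le_mul_of_nonneg_right hxw hθ0.le
    have h2 : (1 + 1 / (100 * θ)) * θ = θ + 1 / 100 := by field_simp
    linarith
  have hu00 : u.coeff 0 = -(σ * q.coeff 0 * N) := by
    have h1 : (N : ℤ) = M' := hN.symm
    rw [h1, hM']
    linear_combination (-(u.coeff 0) * (q.coeff 0 * q.coeff 0)) * hσσ - (u.coeff 0) * hqq
  have hNn : ‖((u.coeff 0 : ℤ) : ℂ)‖ = N := by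
    rw [hu00]
    push_cast
    rw [norm_neg, norm_mul, norm_mul, hq1, Complex.norm_natCast]
    have : ‖(σ : ℂ)‖ = 1 := by
      rcases hσ1 with h | h <;> rw [h] <;> simp
    rw [this, one_mul, one_mul]
  refine ⟨sg, u, N, ?_, ?_, ?_, ?_, ?_, ?_, ?_, ?_, ?_⟩
  · rw [← hσ]; exact hTσ
  · rw [← hσ]; exact hf0
  · rw [← hσ]; exact hu
  · rw [← hσ]; exact hu00
  · rw [← huc]; exact huz
  · rw [← hNr]; linarith
  · rw [← hNr]; exact hMr
  · intro eA heA
    rw [← hσ] at heA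
    have hVA : Q + (eA : RO ℤ) * F = LaurentPolynomial.T (n + 1) * toLaurent u := by
      have h1 : (eA : RO ℤ) * F = -(LaurentPolynomial.C σ * LaurentPolynomial.T (-1) *
          ((e : RO ℤ) * F)) := by
        rw [heA]; ring
      rw [h1, hF, hQ]
      have h2 : (LaurentPolynomial.T (n + 1) : RO ℤ) * toLaurent u =
          LaurentPolynomial.T n * toLaurent (X * u) := by
        rw [map_mul, toLaurent_X, LaurentPolynomial.T_add, mul_assoc]
      have h5 : (toLaurent (C σ * f) : RO ℤ) = LaurentPolynomial.C σ * toLaurent f := by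
        rw [map_mul, toLaurent_C]
      have h6 : (toLaurent (X * f) : RO ℤ) = LaurentPolynomial.T 1 * toLaurent f := by
        rw [map_mul, toLaurent_X]
      rw [h2, ← hu, map_sub, h5, h6]
      have h3 : (LaurentPolynomial.T (-1) : RO ℤ) * LaurentPolynomial.T 1 = 1 := by
        rw [← LaurentPolynomial.T_add, neg_add_cancel, LaurentPolynomial.T_zero]
      linear_combination (-(LaurentPolynomial.C σ * LaurentPolynomial.T n * toLaurent f)) * h3
    refine ⟨⟨⟨N, ?_, n + 1, u, hVA, hNn, ?_⟩, Or.inr hP, -σ, 1, one_ne_zero, ?_⟩,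
      n, q, u, hQ, hVA, hq1, hNn, ?_⟩
    · rw [← hNr]; exact hMpos
    · rw [huc] at huz; exact huz
    · rw [heA]
      have h3 : (LaurentPolynomial.T 1 : RO ℤ) * LaurentPolynomial.T (-1) = 1 := by
        rw [← LaurentPolynomial.T_add, add_neg_cancel, LaurentPolynomial.T_zero]
      have h4 : (LaurentPolynomial.C σ : RO ℤ) * LaurentPolynomial.C σ = 1 := by
        rw [← map_mul, hσσ, map_one]
      rw [map_neg]
      linear_combination (-(e : RO ℤ)) * h3 - (e : RO ℤ) *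
        LaurentPolynomial.T 1 * LaurentPolynomial.T (-1) * h4
    · rw [huc] at huz; exact huz
  · intro hN2 z hz
    rw [← hσ]
    have hle : ∀ z : ℂ, ‖z‖ = 1 → ‖((1 + C (σ : ℂ) * X) * f.map (Int.castRingHom ℂ)).eval z‖ ≤
        ‖uc.eval z‖ := by
      intro z hz
      have h1 := car_dbl hQ hF hc (σ : ℂ) (by rw [pow_two]; exact hσC) z hz
      have h2 := congrArg (eval z) hmap
      simp only [eval_sub, eval_mul, eval_C, eval_X] at h2
      rw [h2, norm_mul z, hz, one_mul] at h1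
      rw [eval_mul, eval_add, eval_one, eval_mul, eval_C, eval_X]
      exact h1
    have h0 : ‖((1 + C (σ : ℂ) * X) * f.map (Int.castRingHom ℂ)).eval 0‖ < ‖uc.eval 0‖ := by
      rw [hucZ, hNn, eval_mul, eval_add, eval_one, eval_mul, eval_C, eval_X, mul_zero, add_zero,
        one_mul, ← coeff_zero_eq_eval_zero, coeff_map]
      have h1 : ‖(Int.castRingHom ℂ) (f.coeff 0)‖ = 1 := by
        rw [eq_intCast, hf0, Int.cast_mul, norm_mul, hq1, mul_one]
        rcases hσ1 with h | h <;> rw [h] <;> simp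
      rw [h1]
      have : (2 : ℝ) ≤ (N : ℝ) := by exact_mod_cast hN2
      linarith
    have h1 := mps huz hle h0 z hz
    intro h2
    have h3 : uc.eval z = -(((1 + C (σ : ℂ) * X) * f.map (Int.castRingHom ℂ)).eval z) := by
      rw [Polynomial.map_add, Polynomial.map_add, Polynomial.map_mul, Polynomial.map_mul, map_C,
        map_X, ← huc, eq_intCast] at h2
      simp only [eval_add, eval_mul, eval_C, eval_X, eval_one] at h2 ⊢
      linear_combination h2
    rw [h3, norm_neg] at h1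
    exact lt_irrefl _ h1

/-- Row E5_ZC5. -/
theorem zc5 (hCa : Ca5S) (hKb : Kb5S) (hCu : Cu5S) (hLb : Lb5S) (hPCZ : PCZS) : Zc5S := by
  intro θ Q F e x n q f s r T c hθ hM hc
  have hM' := hM
  obtain ⟨hQ, hF, hD, hcT, hTim, hcim, hx1, hx2⟩ := hM'
  obtain ⟨hcx, θ', hl, hbig, hsml, hP, b, hb1, hb0⟩ := md_load hLb hθ hM
  have hθ0 : 0 < θ := by linarith
  have hcirc := car_circ hCa hQ hF hc
  have hKB : x ≤ 11 / 10 → ‖r.eval 0‖ ≤ 42 / 100 * ‖s.eval 0‖ ∧
      ‖(derivative r).eval 0 * s.eval 0 - r.eval 0 * (derivative s).eval 0‖ ≤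
        477 / 1000 * ‖s.eval 0‖ ^ 2 ∧ IsUnit ((f.map (Int.castRingHom Eis)).coeff 0) := by
    intro hx
    apply hKb θ _ _ s r T c hθ hD (by rw [hcx]; exact hx)
    intro z hz
    have h1 := hcirc z hz
    have h2 : (q.map (Int.castRingHom Eis) + X * f.map (Int.castRingHom Eis)).map Eis.emb =
        (q + X * f).map (Int.castRingHom ℂ) := by
      rw [← map_cast, Polynomial.map_add (Int.castRingHom Eis), Polynomial.map_mul, map_X]
    rw [h2, map_cast, map_cast]
    exact h1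
  have hunit : x ≤ 11 / 10 → IsUnit (f.coeff 0) := by
    intro hx
    have h1 := Eis.isUnit_iff_emb.mp (hKB hx).2.2
    rw [coeff_map] at h1
    have h2 : ‖((f.coeff 0 : ℤ) : ℂ)‖ = 1 := by simpa using h1
    rw [Complex.norm_intCast] at h2
    have h3 : |f.coeff 0| = 1 := by exact_mod_cast h2
    exact Int.isUnit_iff.mpr ((abs_eq zero_le_one).mp h3)
  refine ⟨hunit, ?_, ?_⟩
  · -- no zero on the circle
    intro z
    have hnz : nz (q.map (Int.castRingHom ℂ)) = 1 := by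
      have := hD.root
      rw [map_cast] at this
      rw [nz, this, Multiset.card_singleton]
    have hmapX : (q + X * f).map (Int.castRingHom ℂ) =
        q.map (Int.castRingHom ℂ) + X * f.map (Int.castRingHom ℂ) := by
      rw [Polynomial.map_add, Polynomial.map_mul, map_X]
    have hcu := hCu (q.map (Int.castRingHom ℂ)) (X * f.map (Int.castRingHom ℂ)) hnz (by
        intro z hz
        have := hD.nz z hz
        rwa [map_cast] at this) (by
        intro z hz
        have h1 := hcirc z hz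
        rw [hmapX] at h1
        rw [eval_mul, eval_X, norm_mul, hz, one_mul]
        exact h1) (by
        rw [← hmapX]
        intro h
        have h1 := congrArg (fun p : ℂ[X] => p.coeff 0) h
        simp only [coeff_map, coeff_add, coeff_X_mul_zero, add_zero, coeff_zero] at h1
        have h2 := hD.q0
        rw [coeff_map] at h2
        have h3 : ‖((q.coeff 0 : ℤ) : ℂ)‖ = 1 := by simpa using h2
        have h4 : ((q.coeff 0 : ℤ) : ℂ) = 0 := by simpa using h1
        rw [h4, norm_zero] at h3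
        exact zero_ne_one h3) ⟨b, hb1, by rw [← hmapX]; exact hb0⟩
    have h1 : evR z (Q + (e : RO ℤ) * F) =
        (z : ℂ) ^ n * ((q + X * f).map (Int.castRingHom ℂ)).eval (z : ℂ) := by
      rw [hQ, hF, ← mul_add, ← map_add]
      exact ev_T_mul z n (q + X * f)
    rw [h1, hmapX]
    exact mul_ne_zero (zpow_ne_zero _ (Circle.coe_ne_zero z)) (hcu z (Circle.norm_coe z))
  · have h9 : 9 / (1000 * θ) ≤ 1 / 100000 := by
      rw [div_le_div_iff₀ (by positivity) (by norm_num)]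
      nlinarith
    rcases lt_or_ge (12 / 10) x with hx | hx
    · left
      refine ⟨by linarith, θ', hl, ?_, hP⟩
      have := hbig hx
      linarith
    · obtain ⟨hs1, hs2⟩ := hsml hx
      rcases lt_or_ge (11 / 10) x with hx3 | hx3
      · left
        refine ⟨by linarith, θ', hl, ?_, hP⟩
        have h10 : 2 / θ ≤ 1 / 100000 := by
          rw [div_le_div_iff₀ hθ0 (by norm_num)]
          nlinarith
        linarith
      · rcases le_or_gt (1 + 1 / (100 * θ)) x with hx4 | hx4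
        · left
          have h11 : 0 < 1 / (100 * θ) := by positivity
          refine ⟨by linarith, θ', hl, ?_, hP⟩
          have h12 := hs2 (hKB hx3).2.2
          have h13 : x * (1 - x) / θ ≤ 0 := by
            apply div_nonpos_of_nonpos_of_nonneg _ hθ0.le
            nlinarith
          have h14 : 100 / θ ^ 2 + 9 / (1000 * θ) ≤ 1 / (100 * θ) := by
            rw [div_add_div _ _ (by positivity) (by positivity), div_le_div_iff₀ (by positivity)
              (by positivity)]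
            have h15 : 0 ≤ θ - 1000000 := by linarith
            nlinarith [mul_nonneg (mul_nonneg hθ0.le hθ0.le) h15, mul_pos hθ0 hθ0]
          linarith
        · right
          exact ⟨hx3, zc_two hPCZ hθ hM hc hcx hx4.le (hunit hx3) (hKB hx3).1 (hKB hx3).2.1
            ⟨θ', hP⟩⟩

end Pool.Agent.B5.H29
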