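import Pool.Agent.Lib.MP_b5021c_nt.E.H29.Va
import Pool.Agent.Lib.MP_b5021c_nt.E.H29.Trv
import Pool.Agent.Lib.MP_b5021c_nt.B.H96.E3Em

/-! Board b5, chapter E3V, part (A), assembly, and the result E3V (helper29). -/

namespace Pool.Agent.B5.H29

open Polynomial Metric Pool.Agent.B5 Pool.Agent.B5.H71 Pool.Agent.B5.H96
open scoped Topology ComplexConjugate LaurentPolynomial
open Pool.Agent.MP_b5021c_nt (nz)

set_option linter.unusedSectionVars false

/-- Row E3V_EVA. -/
theorem e3va (hQc : Qc3S) (hE2 : E2S) (hNd : Nd3vS) (hDv : Dv3S) (hQm : Qm3S) (hT0 : T03vS)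
    (hTa : Ta3S) (hUm : Um3vS) (hSt : St3S) (hSw : Sw3S) (hEv : EvRS)
    (hZ : ZfinS) (hNn : Nn3S) : E3vaS := by
  intro O _ _ _ _ P L _ _ _ _ _ phi D S i0 eta h c n G fd hMc hsn m q f hq hf hqf hvf hbig
  obtain ⟨l, b, j, e, hj, Q, hQ⟩ := hQc O P L phi D S i0 eta h c n G fd hsn
  obtain ⟨d0, -, -, -, -, edge⟩ := hE2 O P L phi D fd.cc.dd fd.cc.two
  have eS := (edge S fd.cc.ray).1
  set g : RO O := c * (G l).coeff 0 with hg
  have hg0 : g ≠ 0 := mul_ne_zero fd.c0 hQ.sp.u0.ne_zero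
  set v : O[X] := q + f with hv
  have hV : D.coeff 0 + (eta : RO O) * D.coeff S = LaurentPolynomial.T m * toLaurent v := by
    rw [hq, hf, hv, map_add, mul_add]
  have hSD : D.coeff S ≠ 0 := fd.cc.ray.1
  have hS0 : (eta : RO O) * D.coeff S ≠ 0 := mul_ne_zero eta.ne_zero hSD
  have hv0 : v ≠ 0 := T_mul_ne (m := m) (by rw [← hV]; exact fd.cc.v0)
  have hf0 : f ≠ 0 := T_mul_ne (m := m) (by rw [← hf]; exact hS0)
  have hvm : v.map (Coef.emb : O →+* ℂ) ≠ 0 := by
    rw [Ne, Polynomial.map_eq_zero_iff emb_inj]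
    exact hv0
  have hfm : f.map (Coef.emb : O →+* ℂ) ≠ 0 := by
    rw [Ne, Polynomial.map_eq_zero_iff emb_inj]
    exact hf0
  have hvmap : v.map (Coef.emb : O →+* ℂ) = q.map (Coef.emb : O →+* ℂ) +
      f.map (Coef.emb : O →+* ℂ) := by
    rw [hv, Polynomial.map_add]
  -- values on the circle
  have evD : ∀ z : Circle, evR z (D.coeff 0) =
      (z : ℂ) ^ m * (q.map (Coef.emb : O →+* ℂ)).eval (z : ℂ) := by
    intro z
    rw [hq, ev_T_mul]
  have evS : ∀ z : Circle, evR z ((eta : RO O) * D.coeff S) =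
      (z : ℂ) ^ m * (f.map (Coef.emb : O →+* ℂ)).eval (z : ℂ) := by
    intro z
    rw [hf, ev_T_mul]
  have qz1 : ∀ z : ℂ, ‖z‖ = 1 → (q.map (Coef.emb : O →+* ℂ)).eval z ≠ 0 := by
    intro z hz
    obtain ⟨w, rfl⟩ := H93.exists_circle hz
    have h1 := d0 w
    rw [evD w] at h1
    exact right_ne_zero_of_mul h1
  have qz : ∀ z : ℂ, ‖z‖ ≤ 1 → (q.map (Coef.emb : O →+* ℂ)).eval z ≠ 0 := by
    intro z hz
    rcases hz.lt_or_eq with h1 | h1
    · exact hqf z h1
    · exact qz1 z h1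
  have le1 : ∀ z : ℂ, ‖z‖ = 1 → ‖(f.map (Coef.emb : O →+* ℂ)).eval z‖ ≤
      ‖(q.map (Coef.emb : O →+* ℂ)).eval z‖ := by
    intro z hz
    obtain ⟨w, rfl⟩ := H93.exists_circle hz
    have h1 := eS w
    have h2 : ‖evR w ((eta : RO O) * D.coeff S)‖ = ‖evR w (D.coeff S)‖ := by
      rw [map_mul, norm_mul, (hEv O).2.1 w _ eta.isUnit, one_mul]
    rw [← h2, evS w, evD w, norm_mul, norm_mul, norm_circle, one_mul, one_mul] at h1
    exact h1
  have veval : ∀ z : ℂ, (v.map (Coef.emb : O →+* ℂ)).eval z =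
      (q.map (Coef.emb : O →+* ℂ)).eval z + (f.map (Coef.emb : O →+* ℂ)).eval z := by
    intro z
    rw [hv, Polynomial.map_add, eval_add]
  have re1 : ∀ z : ℂ, ‖z‖ = 1 → 0 ≤ ((v.map (Coef.emb : O →+* ℂ)).eval z *
      (starRingEnd ℂ) ((q.map (Coef.emb : O →+* ℂ)).eval z)).re := by
    intro z hz
    rw [veval z, add_mul, Complex.add_re, Complex.mul_conj, Complex.normSq_eq_norm_sq,
      Complex.ofReal_re]
    have h1 := le1 z hz
    have h2 := Complex.abs_re_le_norm ((f.map (Coef.emb : O →+* ℂ)).eval z *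
      (starRingEnd ℂ) ((q.map (Coef.emb : O →+* ℂ)).eval z))
    rw [norm_mul, Complex.norm_conj] at h2
    have h3 := (abs_le.mp h2).1
    have h4 := norm_nonneg ((q.map (Coef.emb : O →+* ℂ)).eval z)
    nlinarith
  have nod : ∀ z0 : ℂ, ‖z0‖ = 1 → ¬ (X - C z0) ^ 2 ∣ v.map (Coef.emb : O →+* ℂ) := by
    intro z0 hz0
    exact hNd (q.map (Coef.emb : O →+* ℂ)) (v.map (Coef.emb : O →+* ℂ)) z0 qz re1 hvm hz0
  -- `g` divides `Q`
  obtain ⟨F, hF, hFn⟩ := hDv O P L phi D S i0 eta h c n G l b j e hj Q hQ hMc m v hV nod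
  have hF0 : F ≠ 0 := by
    rintro rfl
    apply hQ.q0
    rw [hF, mul_zero]
  -- `F` is selfreciprocal
  have hsF : F = sharp F := by
    have hFg : Q = cst g * F := hF
    have h1 : Q * cst (rsh g) = sharp Q * cst g := hQ.rq
    have cs : ∀ a : RO O, sharp (cst a : AO O (Ker (co (phK phi (co phi i0)) j))) =
        cst (rsh a) := by
      intro a
      rw [cst, sharp_single, neg_zero]
      rfl
    have h0 : sharp (cst g * F) = cst (rsh g) * sharp F := by rw [map_mul, cs]
    rw [hFg, h0] at h1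
    have hgc : (cst g : AO O (Ker (co (phK phi (co phi i0)) j))) ≠ 0 := by
      rw [cst]
      exact AddMonoidAlgebra.single_ne_zero.mpr hg0
    have hgr : (cst (rsh g) : AO O (Ker (co (phK phi (co phi i0)) j))) ≠ 0 := by
      rw [cst]
      exact AddMonoidAlgebra.single_ne_zero.mpr (rsh_ne hEv hZ g hg0)
    have h2 : (cst g * cst (rsh g)) * F = (cst g * cst (rsh g)) * sharp F := by
      linear_combination h1
    exact mul_left_cancel₀ (mul_ne_zero hgc hgr) h2
  set t : RO O := F.coeff 0 with ht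
  have trsh : rsh t = t := by
    have h1 := congrArg (fun E : AO O (Ker (co (phK phi (co phi i0)) j)) => E.coeff 0) hsF
    simp only [sharp_coeff', neg_zero] at h1
    exact h1.symm
  have tim : ∀ z : Circle, (evR z t).im = 0 := by
    intro z
    have h1 := (hEv O).2.2.1 z t
    rw [trsh] at h1
    exact Complex.conj_eq_iff_im.mp h1.symm
  have FnC : ∀ z : Circle, spec z F ≠ 0 → 0 < (evR z t).re := by
    intro z hz
    have h1 := (hNn _ (spec z F) hz (fun u => hFn z u)).1
    rw [spec_coeff] at h1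
    exact h1
  have tnn : NnR t := by
    intro z
    refine ⟨tim z, ?_⟩
    by_cases h1 : spec z F = 0
    · have h2 : evR z t = 0 := by
        rw [ht, ← spec_coeff, h1]
        rfl
      rw [h2]
      exact le_refl _
    · exact (FnC z h1).le
  have tne : t ≠ 0 := by
    intro h0
    have hex : ∃ a, F.coeff a ≠ 0 := by
      by_contra hcon
      apply hF0
      apply AddMonoidAlgebra.coeff_injective
      apply Finsupp.ext
      intro a
      by_contra h1
      exact hcon ⟨a, h1⟩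
    obtain ⟨a, ha⟩ := hex
    have hex2 : ∃ z : Circle, evR z (F.coeff a) ≠ 0 := by
      by_contra hcon
      apply ha
      apply evR_zero hZ
      intro z
      by_contra h1
      exact hcon ⟨z, h1⟩
    obtain ⟨z, hz⟩ := hex2
    have h1 : spec z F ≠ 0 := by
      intro h2
      apply hz
      rw [← spec_coeff, h2]
      rfl
    have h3 := FnC z h1
    rw [h0, map_zero] at h3
    exact lt_irrefl _ h3
  -- the inequality for the constant coefficients
  have hcont : ∀ p : RO O, Continuous fun z : Circle => evR z p := (hEv O).2.2.2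
  have hineq : ∀ z : Circle, (evR z t).re * ‖evR z (D.coeff 0 + (eta : RO O) * D.coeff S)‖ ^ 2 ≤
      2 * (evR z (D.coeff 0) *
          (starRingEnd ℂ) (evR z (D.coeff 0 + (eta : RO O) * D.coeff S))).re -
        ‖evR z (D.coeff 0 + (eta : RO O) * D.coeff S)‖ ^ 2 := by
    apply le_of_dense hZ g hg0
    · exact (Complex.continuous_re.comp (hcont t)).mul ((hcont _).norm.pow 2)
    · exact (continuous_const.mul (Complex.continuous_re.comp ((hcont _).mul
        (Complex.continuous_conj.comp (hcont _))))).sub ((hcont _).norm.pow 2)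
    · intro z hz
      have h1 := hQm O P L phi D S i0 eta h c n G l b j e hj Q hQ z
      have h2 : Q.coeff 0 = g * t := by
        rw [hF, cst_mul_coeff]
      rw [h2, ← hg] at h1
      have h3 : (evR z (g * t) * (starRingEnd ℂ) (evR z g)).re = ‖evR z g‖ ^ 2 * (evR z t).re := by
        have h4 : evR z (g * t) * (starRingEnd ℂ) (evR z g) =
            ((‖evR z g‖ ^ 2 : ℝ) : ℂ) * evR z t := by
          rw [map_mul, mul_comm (evR z g), mul_assoc, Complex.mul_conj,
            Complex.normSq_eq_norm_sq, mul_comm]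
        rw [h4, Complex.re_ofReal_mul]
      rw [h3] at h1
      have h5 : 0 < ‖evR z g‖ ^ 2 := pow_pos (norm_pos_iff.mpr hz) 2
      have h6 : ‖evR z g‖ ^ 2 * ((evR z t).re *
          ‖evR z (D.coeff 0 + (eta : RO O) * D.coeff S)‖ ^ 2) ≤ ‖evR z g‖ ^ 2 *
          (2 * (evR z (D.coeff 0) *
          (starRingEnd ℂ) (evR z (D.coeff 0 + (eta : RO O) * D.coeff S))).re -
        ‖evR z (D.coeff 0 + (eta : RO O) * D.coeff S)‖ ^ 2) := by
        linarith
      exact le_of_mul_le_mul_left h6 h5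
  have hineq' : ∀ z : Circle, (evR z t).re * ‖(v.map (Coef.emb : O →+* ℂ)).eval (z : ℂ)‖ ^ 2 ≤
      2 * ((q.map (Coef.emb : O →+* ℂ)).eval (z : ℂ) *
        (starRingEnd ℂ) ((v.map (Coef.emb : O →+* ℂ)).eval (z : ℂ))).re -
        ‖(v.map (Coef.emb : O →+* ℂ)).eval (z : ℂ)‖ ^ 2 := by
    intro z
    have h1 := hineq z
    rw [hV, hq, ev_T_mul, ev_T_mul, circ_mul_conj, norm_mul, norm_circle, one_mul] at h1
    exact h1
  have t1 : t = 1 := hT0 O t q f tne tnn qz hvf le1 hineq' hbig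
  have F1 : F = 1 := hTa O _ F hFn t1
  have Qg : Q = cst g := by rw [hF, F1, mul_one]
  -- `f` is zero-free
  have zf : ZF (f.map (Coef.emb : O →+* ℂ)) := by
    apply hUm (q.map (Coef.emb : O →+* ℂ)) (f.map (Coef.emb : O →+* ℂ)) qz hfm
    intro z hz
    obtain ⟨w, rfl⟩ := H93.exists_circle hz
    have h1 := hineq' w
    rw [t1, map_one, Complex.one_re, one_mul] at h1
    rw [← hvmap]
    linarith
  -- the normal form
  have hne : D.coeff 0 + 2 * ((eta : RO O) * D.coeff S) ≠ 0 := by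
    have h1 : D.coeff 0 + 2 * ((eta : RO O) * D.coeff S) =
        LaurentPolynomial.T m * toLaurent (q + f + f) := by
      rw [hq, hf, map_add, map_add]
      ring
    rw [h1]
    apply T_mul_ne'
    intro h2
    have h3 := congrArg (fun p : O[X] => p.coeff 0) h2
    rw [← hv] at h3
    simp only [coeff_add, coeff_zero] at h3
    have h4 : v.coeff 0 = -f.coeff 0 := eq_neg_of_add_eq_zero_left h3
    rw [h4, map_neg, norm_neg] at hbig
    have h5 := norm_nonneg (Coef.emb (f.coeff 0) : ℂ)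
    linarith
  obtain ⟨U, H, pf, hU0, hH0⟩ := hSt O P L phi D S i0 eta h c n G l b j e hj Q hQ Qg hne
  obtain ⟨hDD, hRb, -, hc0, hcb, -⟩ := hSw O P L phi D S (b : L) eta e U H fd.cc.dd pf d0
  refine ⟨zf, swp S (b : L) eta e U H, (b : L), e, hDD, hRb, hc0, ?_, ?_⟩
  · rw [hcb, hU0]
  · rw [hc0, hcb, hU0]
    ring

/-- Row E3V_SUM. -/
theorem e3v (hA : E3vaS) (hT : TrvS) : E3vS := by
  intro O _ _ _ _ P L _ _ _ _ _ phi D S i0 eta h c n G fd hMc hsn m q b hq hb hqf hvf hb1 hv2
  obtain ⟨zb, D', b', e, hDD, hRb, hc0, -, hcl⟩ := hA O P L phi D S i0 eta h c n G fd hMc hsn m q b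
    hq hb hqf hvf (by rw [hb1]; linarith)
  refine ⟨zb, fun a ha => ?_⟩
  have h1 := hT O P L phi D' b' e m q (-b) hDD fd.cc.two hRb (by rw [hc0, hq])
    (by rw [hcl, hb, map_neg, mul_neg]) hqf (by
      intro s hs h0
      rw [Polynomial.map_neg, eval_neg, neg_eq_zero] at h0
      exact zb s hs h0) (by rw [coeff_neg, map_neg, norm_neg, hb1]) a ha
  rw [Polynomial.map_neg, eval_neg, div_neg, Complex.neg_re, mul_neg] at h1
  exact h1

end Pool.Agent.B5.H29
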