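import Pool.Agent.Lib.MP_b5021c_nt.IfaceK1
import Pool.Agent.Lib.MP_b5021c_nt.E.H29.Mp

/-!
# Board b5, all theta: the function `C₁` and Harnack's inequality (helper29; findings 3500, 3511, 3524)

`q` real with exactly one zero `a` in the disc, none on the circle, `|v - q| ≤ |q|` on the circle,
`v(b) = 0`, `q(0) = v(0) ≠ 0`; `A` with `0 ≤ Re A`, `Re A ≤ Re (2 q/v - 1)` on the circle.
`C₁ - r = ((2q/v - 1 - A)(z - b)(1 - bz) + b(1 - A(0))(1 - z²))/z` has nonnegative real part in the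
disc; values at `0` and at `a`.
-/

namespace Pool.Agent.B5.H29

open Polynomial Metric Pool.Agent.B5
open scoped Topology ComplexConjugate
open Pool.Agent.MP_b5021c_nt (nz ZcoS)

/-- (C1H) the function `C₁` and Harnack's inequality. `A = t_0 + 2 Σ_{k ≥ 1} t_k z^k`. -/
def C1hS : Prop := ∀ (q v A : ℝ[X]) (a b : ℝ), 0 < a → a < 1 → 0 < b → b < 1 →
  nz (q.map Complex.ofRealHom) = 1 → q.eval a = 0 →
  (∀ z : ℂ, ‖z‖ = 1 → (q.map Complex.ofRealHom).eval z ≠ 0) →
  (∀ z : ℂ, ‖z‖ = 1 → ‖((v - q).map Complex.ofRealHom).eval z‖ ≤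
    ‖(q.map Complex.ofRealHom).eval z‖) →
  v.eval b = 0 → v.eval a ≠ 0 → v.coeff 0 = q.coeff 0 → q.coeff 0 ≠ 0 →
  (∀ z : ℂ, ‖z‖ = 1 → 0 ≤ ((A.map Complex.ofRealHom).eval z).re) →
  (∀ z : ℂ, ‖z‖ = 1 → ((A.map Complex.ofRealHom).eval z).re *
      ‖(v.map Complex.ofRealHom).eval z‖ ^ 2 ≤
    2 * ((q.map Complex.ofRealHom).eval z * (starRingEnd ℂ) ((v.map Complex.ofRealHom).eval z)).re
      - ‖(v.map Complex.ofRealHom).eval z‖ ^ 2) →
    0 ≤ 1 + b ^ 2 + 2 * b * ((v.coeff 1 - q.coeff 1) / q.coeff 0) -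
        ((1 + b ^ 2) * A.coeff 0 - b * A.coeff 1) ∧
    (1 - a) / (1 + a) * (1 + b ^ 2 + 2 * b * ((v.coeff 1 - q.coeff 1) / q.coeff 0) -
        ((1 + b ^ 2) * A.coeff 0 - b * A.coeff 1)) ≤
      ((1 + A.eval a) * (b - a) * (1 - a * b) + b * (1 - A.coeff 0) * (1 - a ^ 2)) / a

lemma nz_mul' {p q : ℂ[X]} (h : p * q ≠ 0) : nz (p * q) = nz p + nz q := by
  unfold nz
  rw [roots_mul h, Multiset.filter_add, Multiset.card_add]

lemma nz_X : nz (X : ℂ[X]) = 1 := by
  unfold nz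
  rw [roots_X, Multiset.filter_singleton]
  simp

lemma nz_XsubC {b : ℂ} (hb : ‖b‖ < 1) : nz (X - C b : ℂ[X]) = 1 := by
  unfold nz
  rw [roots_X_sub_C, Multiset.filter_singleton, if_pos hb, Multiset.card_singleton]

lemma nz_zero_of_ZF {p : ℂ[X]} (h : ∀ z : ℂ, ‖z‖ < 1 → p.eval z ≠ 0) : nz p = 0 := by
  unfold nz
  rw [Multiset.card_eq_zero, Multiset.filter_eq_nil]
  intro z hz h1
  exact h z h1 (isRoot_of_mem_roots hz)

lemma ZF_of_nz {p : ℂ[X]} (hp : p ≠ 0) (h : nz p = 0) : ZF p := by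
  intro z hz h0
  unfold nz at h
  rw [Multiset.card_eq_zero, Multiset.filter_eq_nil] at h
  exact h z ((mem_roots hp).mpr h0) hz

/-- affine homotopy -/
lemma zco_aff (hZ : ZcoS) (P B : ℂ[X])
    (h : ∀ t : ℝ, 0 ≤ t → t ≤ 1 → ∀ z : ℂ, ‖z‖ = 1 → P.eval z + t * B.eval z ≠ 0) :
    nz P = nz (P + B) := by
  have h1 := hZ (fun t => P + C (t : ℂ) * B) (max P.natDegree B.natDegree) ?_ ?_ ?_
  · simpa using h1
  · intro t _
    exact (natDegree_add_le _ _).trans (max_le_max le_rfl (natDegree_C_mul_le _ _))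
  · intro i
    apply Continuous.continuousOn
    have : (fun t : ℝ => (P + C (t : ℂ) * B).coeff i) =
        fun t : ℝ => P.coeff i + (t : ℂ) * B.coeff i := by
      funext t
      rw [coeff_add, coeff_C_mul]
    change Continuous (fun t : ℝ => (P + C (t : ℂ) * B).coeff i)
    rw [this]
    exact continuous_const.add (Complex.continuous_ofReal.mul continuous_const)
  · intro t ht z hz
    have := h t ht.1 ht.2 z hz
    simpa using this

lemma circ_inv {z : ℂ} (hz : ‖z‖ = 1) : z * (starRingEnd ℂ) z = 1 := by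
  rw [Complex.mul_conj, Complex.normSq_eq_norm_sq, hz]; norm_num

/-- On the circle `(z - b)(1 - bz) = z |z - b|²`. -/
lemma circ_K {z : ℂ} (hz : ‖z‖ = 1) (b : ℝ) :
    (z - b) * (1 - b * z) = z * ((‖z - b‖ ^ 2 : ℝ) : ℂ) := by
  have h1 := circ_inv hz
  have h2 : ((‖z - b‖ ^ 2 : ℝ) : ℂ) = (z - b) * (starRingEnd ℂ) (z - b) := by
    rw [Complex.mul_conj, Complex.normSq_eq_norm_sq]
  rw [h2, map_sub, Complex.conj_ofReal]
  linear_combination (-(z - b)) * h1

/-- On the circle `1 - z² = z (conj z - z)`. -/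
lemma circ_I {z : ℂ} (hz : ‖z‖ = 1) :
    (1 - z ^ 2) = z * ((-(2 * z.im) : ℝ) * Complex.I) := by
  have h1 := circ_inv hz
  have h2 : (((-(2 * z.im) : ℝ) : ℂ) * Complex.I) = (starRingEnd ℂ) z - z := by
    apply Complex.ext <;> simp
    ring
  rw [h2]
  linear_combination (-1 : ℂ) * h1

lemma K_pos {z : ℂ} (hz : ‖z‖ = 1) {b : ℝ} (hb0 : 0 < b) (hb : b < 1) : 0 < ‖z - b‖ ^ 2 := by
  apply pow_pos
  rw [norm_pos_iff]
  intro h
  have : z = (b : ℂ) := by linear_combination h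
  rw [this, Complex.norm_real, Real.norm_eq_abs, abs_of_pos hb0] at hz
  linarith

/-- real part of `x conj y` from the norms -/
lemma norm_sub_le_add {x y : ℂ} (h : 0 ≤ (x * (starRingEnd ℂ) y).re) : ‖x - y‖ ≤ ‖x + y‖ := by
  have e1 : ‖x - y‖ ^ 2 = ‖x‖ ^ 2 + ‖y‖ ^ 2 - 2 * (x * (starRingEnd ℂ) y).re := by
    simp only [← Complex.normSq_eq_norm_sq, Complex.normSq_apply, Complex.sub_re, Complex.sub_im,
      Complex.mul_re, Complex.conj_re, Complex.conj_im]
    ring
  have e2 : ‖x + y‖ ^ 2 = ‖x‖ ^ 2 + ‖y‖ ^ 2 + 2 * (x * (starRingEnd ℂ) y).re := by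
    simp only [← Complex.normSq_eq_norm_sq, Complex.normSq_apply, Complex.add_re, Complex.add_im,
      Complex.mul_re, Complex.conj_re, Complex.conj_im]
    ring
  exact (pow_le_pow_iff_left₀ (norm_nonneg _) (norm_nonneg _) two_ne_zero).mp (by linarith)

lemma re_of_norm_sub_le {x y : ℂ} (h : ‖x - y‖ ≤ ‖x + y‖) : 0 ≤ (x * (starRingEnd ℂ) y).re := by
  have e1 : ‖x - y‖ ^ 2 = ‖x‖ ^ 2 + ‖y‖ ^ 2 - 2 * (x * (starRingEnd ℂ) y).re := by
    simp only [← Complex.normSq_eq_norm_sq, Complex.normSq_apply, Complex.sub_re, Complex.sub_im,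
      Complex.mul_re, Complex.conj_re, Complex.conj_im]
    ring
  have e2 : ‖x + y‖ ^ 2 = ‖x‖ ^ 2 + ‖y‖ ^ 2 + 2 * (x * (starRingEnd ℂ) y).re := by
    simp only [← Complex.normSq_eq_norm_sq, Complex.normSq_apply, Complex.add_re, Complex.add_im,
      Complex.mul_re, Complex.conj_re, Complex.conj_im]
    ring
  have := pow_le_pow_left₀ (norm_nonneg _) h 2
  linarith

theorem c1h (hZ : ZcoS) : C1hS := by
  intro q v A a b ha0 ha1 hb0 hb1 hnzq hqa hqc hle hvb hva hv0 hq0 hA hmain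
  set qc : ℂ[X] := q.map Complex.ofRealHom with hqcd
  set vc : ℂ[X] := v.map Complex.ofRealHom with hvcd
  set Ac : ℂ[X] := A.map Complex.ofRealHom with hAcd
  have hxc : (v - q).map Complex.ofRealHom = vc - qc := by rw [Polynomial.map_sub]
  rw [hxc] at hle
  obtain ⟨A0, hA0⟩ : ∃ A0 : ℝ, A0 = A.coeff 0 := ⟨_, rfl⟩
  -- real polynomials
  obtain ⟨s, hs⟩ := dvd_iff_isRoot.mpr hvb
  obtain ⟨n1, hn1⟩ : ∃ n1 : ℝ[X], n1 = (2 * q - v - A * v) * (1 - C b * X) +
    C (b * (1 - A0)) * (1 - X ^ 2) * s := ⟨_, rfl⟩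
  have hsb : -b * s.coeff 0 = v.coeff 0 := by
    rw [hs, mul_coeff_zero, coeff_sub, coeff_X_zero, coeff_C_zero]
    ring
  have hn10 : n1.eval 0 = 0 := by
    have h1 : n1.eval 0 = (2 * q.eval 0 - v.eval 0 - A.eval 0 * v.eval 0) +
        (b * (1 - A0)) * s.eval 0 := by
      rw [hn1]; simp
    rw [h1, ← coeff_zero_eq_eval_zero, ← coeff_zero_eq_eval_zero, ← coeff_zero_eq_eval_zero,
      ← coeff_zero_eq_eval_zero, ← hA0]
    linear_combination (-2 : ℝ) * hv0 - (1 - A0) * hsb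
  obtain ⟨W, hW⟩ := dvd_iff_isRoot.mpr hn10
  rw [C_0, sub_zero] at hW
  have hN : (X - C b) * X * W = (2 * q - v - A * v) * (X - C b) * (1 - C b * X) +
      C (b * (1 - A0)) * (1 - X ^ 2) * v := by
    have h1 : (X - C b) * X * W = (X - C b) * n1 := by rw [hW]; ring
    rw [h1, hn1, hs]
    ring
  set Wc : ℂ[X] := W.map Complex.ofRealHom with hWcd
  set sc : ℂ[X] := s.map Complex.ofRealHom with hscd
  have hNc : ∀ z : ℂ, (z - b) * z * Wc.eval z =
      (2 * qc.eval z - vc.eval z - Ac.eval z * vc.eval z) * (z - b) * (1 - b * z) +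
      (b * (1 - A0)) * (1 - z ^ 2) * vc.eval z := by
    intro z
    have h1 := congrArg (fun p : ℝ[X] => (p.map Complex.ofRealHom).eval z) hN
    simpa using h1
  have hsc : ∀ z : ℂ, vc.eval z = (z - b) * sc.eval z := by
    intro z
    have h1 := congrArg (fun p : ℝ[X] => (p.map Complex.ofRealHom).eval z) hs
    simpa using h1
  -- the homotopies
  have hzf : ∀ lam : ℝ, 0 < lam → ZF (Wc + C (lam : ℂ) * sc) := by
    intro lam hlam
    -- first: in `A`
    obtain ⟨P0, hP0⟩ : ∃ P0 : ℂ[X], P0 = (2 * qc - vc) * (X - C (b : ℂ)) * (1 - C (b : ℂ) * X) +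
      C (b : ℂ) * (1 - X ^ 2) * vc + C (lam : ℂ) * X * vc := ⟨_, rfl⟩
    obtain ⟨B0, hB0⟩ : ∃ B0 : ℂ[X], B0 = -(Ac * vc * (X - C (b : ℂ)) * (1 - C (b : ℂ) * X)) -
      C ((b * A0 : ℝ) : ℂ) * (1 - X ^ 2) * vc := ⟨_, rfl⟩
    have hne1 : ∀ t : ℝ, 0 ≤ t → t ≤ 1 → ∀ z : ℂ, ‖z‖ = 1 → P0.eval z + t * B0.eval z ≠ 0 := by
      intro t ht0 ht1 z hz h0
      have hz0 : z ≠ 0 := by
        rintro rfl
        simp at hz
      have hK := K_pos hz hb0 hb1
      have hKe := circ_K hz b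
      have hIe := circ_I hz
      set K : ℝ := ‖z - b‖ ^ 2
      set y : ℝ := -(2 * z.im)
      have h1 : P0.eval z + t * B0.eval z = z * ((2 * qc.eval z - vc.eval z -
          t * (Ac.eval z * vc.eval z)) * K + (b * (1 - t * A0)) * (y * Complex.I) * vc.eval z +
          lam * vc.eval z) := by
        rw [hP0, hB0]
        simp only [eval_add, eval_sub, eval_mul, eval_C, eval_X, eval_one, eval_pow, eval_neg,
          eval_ofNat, Complex.ofReal_mul]
        linear_combination (2 * qc.eval z - vc.eval z - t * (Ac.eval z * vc.eval z)) * hKe +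
          (b * (1 - t * A0)) * vc.eval z * hIe
      rw [h1] at h0
      have h2 := (mul_eq_zero.mp h0).resolve_left hz0
      by_cases hv : vc.eval z = 0
      · rw [hv] at h2
        have h3 : 2 * qc.eval z * (K : ℂ) = 0 := by linear_combination h2
        rcases mul_eq_zero.mp h3 with h4 | h4
        · exact hqc z hz ((mul_eq_zero.mp h4).resolve_left two_ne_zero)
        · exact hK.ne' (by exact_mod_cast h4)
      · have h3 := congrArg (fun x : ℂ => (x * (starRingEnd ℂ) (vc.eval z)).re) h2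
        simp only [zero_mul, Complex.zero_re] at h3
        have h4 : vc.eval z * (starRingEnd ℂ) (vc.eval z) = ((‖vc.eval z‖ ^ 2 : ℝ) : ℂ) := by
          rw [Complex.mul_conj, Complex.normSq_eq_norm_sq]
        have h5 : ((2 * qc.eval z - vc.eval z - t * (Ac.eval z * vc.eval z)) * K +
            (b * (1 - t * A0)) * (y * Complex.I) * vc.eval z + lam * vc.eval z) *
            (starRingEnd ℂ) (vc.eval z) =
            ((2 : ℝ) : ℂ) * ((K : ℝ) : ℂ) * (qc.eval z * (starRingEnd ℂ) (vc.eval z)) -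
              ((K * ‖vc.eval z‖ ^ 2 : ℝ) : ℂ) - ((t * K * ‖vc.eval z‖ ^ 2 : ℝ) : ℂ) * Ac.eval z +
              ((b * (1 - t * A0) * y * ‖vc.eval z‖ ^ 2 : ℝ) : ℂ) * Complex.I +
              ((lam * ‖vc.eval z‖ ^ 2 : ℝ) : ℂ) := by
          push_cast
          rw [show ((‖vc.eval z‖ : ℂ)) ^ 2 = vc.eval z * (starRingEnd ℂ) (vc.eval z) by
            rw [h4]; push_cast; ring]
          ring
        rw [h5] at h3
        rw [Complex.add_re, Complex.add_re, Complex.sub_re, Complex.sub_re, Complex.ofReal_re,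
          Complex.ofReal_re, Complex.re_ofReal_mul, Complex.re_ofReal_mul, Complex.I_re, mul_zero,
          add_zero, ← Complex.ofReal_mul, Complex.re_ofReal_mul] at h3
        have h6 := hmain z hz
        have h7 := hA z hz
        have h8 : 0 < ‖vc.eval z‖ ^ 2 := pow_pos (norm_pos_iff.mpr hv) 2
        have h9 : 0 ≤ K * (2 * (qc.eval z * (starRingEnd ℂ) (vc.eval z)).re - ‖vc.eval z‖ ^ 2 -
            (Ac.eval z).re * ‖vc.eval z‖ ^ 2) := mul_nonneg hK.le (by linarith)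
        have h10 : 0 ≤ (1 - t) * (K * ‖vc.eval z‖ ^ 2 * (Ac.eval z).re) :=
          mul_nonneg (by linarith) (mul_nonneg (mul_nonneg hK.le h8.le) h7)
        have h11 : 0 < lam * ‖vc.eval z‖ ^ 2 := mul_pos hlam h8
        nlinarith
    have hc1 := zco_aff hZ P0 B0 hne1
    -- second: in `v`
    obtain ⟨P1, hP1⟩ : ∃ P1 : ℂ[X], P1 = qc * (X * (C ((1 + b ^ 2 + lam : ℝ) : ℂ) -
      C ((2 * b : ℝ) : ℂ) * X)) := ⟨_, rfl⟩
    obtain ⟨B1, hB1⟩ : ∃ B1 : ℂ[X], B1 = (vc - qc) * (-((X - C (b : ℂ)) * (1 - C (b : ℂ) * X)) +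
      C (b : ℂ) * (1 - X ^ 2) + C (lam : ℂ) * X) := ⟨_, rfl⟩
    have hsum : P1 + B1 = P0 := by
      rw [hP1, hB1, hP0]
      simp only [Complex.ofReal_add, Complex.ofReal_mul, Complex.ofReal_one, Complex.ofReal_pow,
        C_add, C_mul, C_pow, C_1, Complex.ofReal_ofNat]
      have : (C (2 : ℂ) : ℂ[X]) = 2 := rfl
      rw [this]
      ring
    have hne2 : ∀ t : ℝ, 0 ≤ t → t ≤ 1 → ∀ z : ℂ, ‖z‖ = 1 → P1.eval z + t * B1.eval z ≠ 0 := by
      intro t ht0 ht1 z hz h0
      have hz0 : z ≠ 0 := by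
        rintro rfl
        simp at hz
      have hK := K_pos hz hb0 hb1
      have hKe := circ_K hz b
      have hIe := circ_I hz
      set K : ℝ := ‖z - b‖ ^ 2
      set y : ℝ := -(2 * z.im)
      have h1 : P1.eval z + t * B1.eval z = z * (qc.eval z * ((K + lam : ℝ) + (b * y : ℝ) * Complex.I) +
          t * (vc.eval z - qc.eval z) * ((lam - K : ℝ) + (b * y : ℝ) * Complex.I)) := by
        rw [hP1, hB1]
        simp only [eval_add, eval_sub, eval_mul, eval_C, eval_X, eval_one, eval_pow, eval_neg]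
        push_cast
        linear_combination (qc.eval z - t * (vc.eval z - qc.eval z)) * hKe +
          b * (qc.eval z + t * (vc.eval z - qc.eval z)) * hIe
      rw [h1] at h0
      have h2 := (mul_eq_zero.mp h0).resolve_left hz0
      have h3 : qc.eval z * ((K + lam : ℝ) + (b * y : ℝ) * Complex.I) =
          -(t * (vc.eval z - qc.eval z) * ((lam - K : ℝ) + (b * y : ℝ) * Complex.I)) := by
        linear_combination h2
      have h4 := congrArg norm h3
      rw [norm_neg, norm_mul, norm_mul, norm_mul, Complex.norm_real, Real.norm_eq_abs,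
        abs_of_nonneg ht0] at h4
      have h5 : 0 < ‖qc.eval z‖ := norm_pos_iff.mpr (hqc z hz)
      have h6 : ‖vc.eval z - qc.eval z‖ ≤ ‖qc.eval z‖ := by
        have := hle z hz
        rwa [eval_sub] at this
      have h7 : t * ‖vc.eval z - qc.eval z‖ ≤ ‖qc.eval z‖ := by
        have := norm_nonneg (vc.eval z - qc.eval z)
        nlinarith
      have h8 : ‖(((K + lam : ℝ) : ℂ) + ((b * y : ℝ) : ℂ) * Complex.I)‖ ≤
          ‖(((lam - K : ℝ) : ℂ) + ((b * y : ℝ) : ℂ) * Complex.I)‖ := by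
        have h9 := mul_le_mul_of_nonneg_right h7
          (norm_nonneg (((lam - K : ℝ) : ℂ) + ((b * y : ℝ) : ℂ) * Complex.I))
        rw [← h4] at h9
        exact le_of_mul_le_mul_left h9 h5
      have h9 := pow_le_pow_left₀ (norm_nonneg _) h8 2
      rw [← Complex.normSq_eq_norm_sq, ← Complex.normSq_eq_norm_sq, Complex.normSq_add_mul_I,
        Complex.normSq_add_mul_I] at h9
      nlinarith [mul_pos hK hlam]
    have hc2 := zco_aff hZ P1 B1 hne2
    rw [hsum] at hc2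
    -- number of zeros of `P1`
    have hq0c : qc ≠ 0 := by
      intro h
      rw [h] at hnzq
      simp [nz] at hnzq
    have hlin : (C ((1 + b ^ 2 + lam : ℝ) : ℂ) - C ((2 * b : ℝ) : ℂ) * X : ℂ[X]) ≠ 0 := by
      intro h
      have := congrArg (fun p : ℂ[X] => p.eval 0) h
      simp only [eval_sub, eval_mul, eval_C, eval_X, mul_zero, sub_zero, eval_zero] at this
      have h1 : (1 + b ^ 2 + lam : ℝ) = 0 := by exact_mod_cast this
      nlinarith [sq_nonneg b]
    have hnP1 : nz P1 = 2 := by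
      have hX1 : (X * (C ((1 + b ^ 2 + lam : ℝ) : ℂ) - C ((2 * b : ℝ) : ℂ) * X) : ℂ[X]) ≠ 0 :=
        mul_ne_zero X_ne_zero hlin
      rw [hP1, nz_mul' (mul_ne_zero hq0c hX1), nz_mul' hX1, nz_X, hnzq, nz_zero_of_ZF]
      intro z hz h0
      simp only [eval_sub, eval_mul, eval_C, eval_X] at h0
      have h1 : ((1 + b ^ 2 + lam : ℝ) : ℂ) = ((2 * b : ℝ) : ℂ) * z := by linear_combination h0
      have h2 := congrArg norm h1
      rw [norm_mul, Complex.norm_real, Complex.norm_real, Real.norm_eq_abs, Real.norm_eq_abs,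
        abs_of_pos (by positivity), abs_of_pos (by positivity)] at h2
      nlinarith [sq_nonneg (1 - b)]
    -- conclusion
    have hprod : (X - C (b : ℂ)) * X * (Wc + C (lam : ℂ) * sc) = P0 + B0 := by
      have h1 := congrArg (fun p : ℝ[X] => p.map Complex.ofRealHom) hN
      have h2 := congrArg (fun p : ℝ[X] => p.map Complex.ofRealHom) hs
      simp only [Polynomial.map_add, Polynomial.map_sub, Polynomial.map_mul, Polynomial.map_pow,
        map_X, map_C, Polynomial.map_one, Polynomial.map_ofNat, Complex.ofRealHom_eq_coe,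
        C_mul, C_sub, C_1] at h1 h2
      rw [hP0, hB0]
      simp only [Complex.ofReal_mul, C_mul]
      linear_combination h1 - C (lam : ℂ) * X * h2
    have hne0 : P0 + B0 ≠ 0 := by
      intro h
      have h1 := hne1 1 zero_le_one le_rfl 1 (by simp)
      apply h1
      have h2 := congrArg (fun p : ℂ[X] => p.eval 1) h
      simp only [eval_add, eval_zero] at h2
      rw [Complex.ofReal_one, one_mul]
      exact h2
    have hcount : nz ((X - C (b : ℂ)) * X * (Wc + C (lam : ℂ) * sc)) = 2 := by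
      rw [hprod, ← hc1, ← hc2, hnP1]
    rw [← hprod] at hne0
    rw [nz_mul' hne0, nz_mul' (left_ne_zero_of_mul hne0), nz_X, nz_XsubC (by
      rw [Complex.norm_real, Real.norm_eq_abs, abs_of_pos hb0]; exact hb1)] at hcount
    exact ZF_of_nz (right_ne_zero_of_mul hne0) (by omega)
  -- positivity on the circle
  have hpos : ∀ z : ℂ, ‖z‖ = 1 → 0 ≤ (Wc.eval z * (starRingEnd ℂ) (sc.eval z)).re := by
    intro z hz
    have hz0 : z ≠ 0 := by
      rintro rfl
      simp at hz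
    have hK := K_pos hz hb0 hb1
    have hKe := circ_K hz b
    have hIe := circ_I hz
    have hKn : ((‖z - b‖ ^ 2 : ℝ) : ℂ) = (z - b) * (starRingEnd ℂ) (z - b) := by
      rw [Complex.mul_conj, Complex.normSq_eq_norm_sq]
    set K : ℝ := ‖z - b‖ ^ 2
    set y : ℝ := -(2 * z.im)
    have h1 : (z - b) * Wc.eval z = (2 * qc.eval z - vc.eval z - Ac.eval z * vc.eval z) * K +
        (b * (1 - A0)) * (y * Complex.I) * vc.eval z := by
      apply mul_left_cancel₀ hz0
      linear_combination hNc z + (2 * qc.eval z - vc.eval z - Ac.eval z * vc.eval z) * hKe +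
        b * (1 - A0) * vc.eval z * hIe
    have h4 : vc.eval z * (starRingEnd ℂ) (vc.eval z) = ((‖vc.eval z‖ ^ 2 : ℝ) : ℂ) := by
      rw [Complex.mul_conj, Complex.normSq_eq_norm_sq]
    have h2 : ((K : ℝ) : ℂ) * (Wc.eval z * (starRingEnd ℂ) (sc.eval z)) =
        ((2 : ℝ) : ℂ) * ((K : ℝ) : ℂ) * (qc.eval z * (starRingEnd ℂ) (vc.eval z)) -
          ((K * ‖vc.eval z‖ ^ 2 : ℝ) : ℂ) - ((K * ‖vc.eval z‖ ^ 2 : ℝ) : ℂ) * Ac.eval z +
          ((b * (1 - A0) * y * ‖vc.eval z‖ ^ 2 : ℝ) : ℂ) * Complex.I := by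
      have h5 : ((K : ℝ) : ℂ) * (Wc.eval z * (starRingEnd ℂ) (sc.eval z)) =
          ((z - b) * Wc.eval z) * (starRingEnd ℂ) (vc.eval z) := by
        rw [hKn, hsc z, map_mul]
        ring
      rw [h5, h1]
      push_cast
      rw [show ((‖vc.eval z‖ : ℂ)) ^ 2 = vc.eval z * (starRingEnd ℂ) (vc.eval z) by
        rw [h4]; push_cast; ring]
      ring
    have h3 := congrArg Complex.re h2
    rw [Complex.add_re, Complex.sub_re, Complex.sub_re, Complex.ofReal_re,
      Complex.re_ofReal_mul, Complex.re_ofReal_mul, Complex.re_ofReal_mul, Complex.I_re, mul_zero,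
      add_zero, ← Complex.ofReal_mul, Complex.re_ofReal_mul] at h3
    have h6 := hmain z hz
    have h9 : 0 ≤ K * (2 * (qc.eval z * (starRingEnd ℂ) (vc.eval z)).re - ‖vc.eval z‖ ^ 2 -
        (Ac.eval z).re * ‖vc.eval z‖ ^ 2) := mul_nonneg hK.le (by linarith)
    have h10 : 0 ≤ K * (Wc.eval z * (starRingEnd ℂ) (sc.eval z)).re := by
      rw [h3]; linarith
    exact nonneg_of_mul_nonneg_right h10 hK
  have hpl : ∀ lam : ℝ, 0 < lam → ∀ z : ℂ, ‖z‖ = 1 →
      ‖(Wc - C (lam : ℂ) * sc).eval z‖ ≤ ‖(Wc + C (lam : ℂ) * sc).eval z‖ := by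
    intro lam hlam z hz
    rw [eval_sub, eval_add, eval_mul, eval_C]
    apply norm_sub_le_add
    rw [map_mul, Complex.conj_ofReal]
    have : Wc.eval z * ((lam : ℂ) * (starRingEnd ℂ) (sc.eval z)) =
        (lam : ℂ) * (Wc.eval z * (starRingEnd ℂ) (sc.eval z)) := by ring
    rw [this, Complex.re_ofReal_mul]
    exact mul_nonneg hlam.le (hpos z hz)
  -- positivity in the disc
  have hdisc : ∀ x : ℝ, |x| < 1 → 0 ≤ W.eval x * s.eval x := by
    intro x hx
    have h1 := mpo _ _ _ rfl (hzf 1 one_pos) (hpl 1 one_pos) (x : ℂ) (by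
      rw [Complex.norm_real, Real.norm_eq_abs]; exact hx)
    rw [eval_sub, eval_add, eval_mul, eval_C, Complex.ofReal_one, one_mul] at h1
    have h2 := re_of_norm_sub_le h1
    have e1 : Wc.eval (x : ℂ) = ((W.eval x : ℝ) : ℂ) := by
      rw [hWcd]
      exact eval_map_apply Complex.ofRealHom x
    have e2 : sc.eval (x : ℂ) = ((s.eval x : ℝ) : ℂ) := by
      rw [hscd]
      exact eval_map_apply Complex.ofRealHom x
    rw [e1, e2, Complex.conj_ofReal, ← Complex.ofReal_mul, Complex.ofReal_re] at h2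
    exact h2
  -- the value at `0`
  have hs0 : s.eval 0 ≠ 0 := by
    intro h
    rw [← coeff_zero_eq_eval_zero] at h
    rw [h, mul_zero] at hsb
    exact hq0 (by rw [← hv0, ← hsb])
  obtain ⟨g0, hg0⟩ : ∃ g0 : ℝ, g0 = 1 + b ^ 2 + 2 * b * ((v.coeff 1 - q.coeff 1) / q.coeff 0) -
        ((1 + b ^ 2) * A.coeff 0 - b * A.coeff 1) := ⟨_, rfl⟩
  have hW0 : W.eval 0 = g0 * s.eval 0 := by
    have h1 := congrArg (fun p : ℝ[X] => (derivative p).eval 0) hN
    simp only [derivative_add, derivative_mul, derivative_sub, derivative_one, derivative_C,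
      derivative_X, derivative_pow, derivative_ofNat, eval_add, eval_mul, eval_sub, eval_one,
      eval_C, eval_X, eval_pow, zero_mul, mul_zero, sub_zero, zero_add, add_zero,
      zero_sub, mul_one, eval_ofNat, one_mul, eval_neg, Nat.cast_ofNat] at h1
    have d1 : ∀ p : ℝ[X], (derivative p).eval 0 = p.coeff 1 := by
      intro p
      rw [← coeff_zero_eq_eval_zero, coeff_derivative]
      simp
    have d0 : ∀ p : ℝ[X], p.eval 0 = p.coeff 0 := fun p => (coeff_zero_eq_eval_zero p).symm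
    rw [d1, d1, d1, d0, d0, d0, d0, ← hA0] at h1
    rw [d0, d0]
    have h2 : q.coeff 0 * g0 = (1 + b ^ 2) * q.coeff 0 + 2 * b * (v.coeff 1 - q.coeff 1) -
        ((1 + b ^ 2) * A.coeff 0 - b * A.coeff 1) * q.coeff 0 := by
      rw [hg0]; field_simp
    rw [← hA0] at h2
    apply mul_left_cancel₀ (neg_ne_zero.mpr hb0.ne')
    linear_combination h1 - g0 * hsb - g0 * hv0 - h2 +
      (b * A.coeff 1 - (1 + b ^ 2) * (1 + A0)) * hv0
  have hg0' : 0 ≤ g0 := by
    have h1 := hdisc 0 (by simp)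
    rw [hW0] at h1
    have h2 : 0 < s.eval 0 * s.eval 0 := mul_self_pos.mpr hs0
    have h3 : g0 * s.eval 0 * s.eval 0 = g0 * (s.eval 0 * s.eval 0) := by ring
    rw [h3] at h1
    exact nonneg_of_mul_nonneg_left h1 h2
  -- the value at `a`
  have hab : a - b ≠ 0 := by
    intro h
    apply hva
    rw [sub_eq_zero.mp h]
    exact hvb
  have hsa : v.eval a = (a - b) * s.eval a := by
    rw [hs, eval_mul, eval_sub, eval_X, eval_C]
  have hsa0 : s.eval a ≠ 0 := by
    intro h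
    apply hva
    rw [hsa, h, mul_zero]
  obtain ⟨H, hH⟩ : ∃ H : ℝ, H = ((1 + A.eval a) * (b - a) * (1 - a * b) +
      b * (1 - A.coeff 0) * (1 - a ^ 2)) / a := ⟨_, rfl⟩
  have hWa : W.eval a = H * s.eval a := by
    have h1 := congrArg (fun p : ℝ[X] => p.eval a) hN
    simp only [eval_add, eval_mul, eval_sub, eval_one, eval_C, eval_X, eval_pow, eval_ofNat] at h1
    rw [hqa, hsa, hA0] at h1
    have h2 : a * H = (1 + A.eval a) * (b - a) * (1 - a * b) +
      b * (1 - A.coeff 0) * (1 - a ^ 2) := by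
      rw [hH]; field_simp
    apply mul_left_cancel₀ (mul_ne_zero hab ha0.ne')
    linear_combination h1 - (a - b) * s.eval a * h2
  have hHn : 0 ≤ H := by
    have h1 := hdisc a (by rw [abs_of_pos ha0]; exact ha1)
    rw [hWa] at h1
    have h2 : 0 < s.eval a * s.eval a := mul_self_pos.mpr hsa0
    have h3 : H * s.eval a * s.eval a = H * (s.eval a * s.eval a) := by ring
    rw [h3] at h1
    exact nonneg_of_mul_nonneg_left h1 h2
  rw [← hg0, ← hH]
  refine ⟨hg0', ?_⟩
  have hq : 0 < 1 + a := by linarith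
  rcases hg0'.eq_or_lt with h0 | hpos0
  · rw [← h0, mul_zero]
    exact hHn
  -- Harnack
  obtain ⟨R, hR⟩ : ∃ R : ℂ[X], R = Wc - C (g0 : ℂ) * sc := ⟨_, rfl⟩
  have eW : ∀ x : ℝ, Wc.eval (x : ℂ) = ((W.eval x : ℝ) : ℂ) := by
    intro x
    rw [hWcd]
    exact eval_map_apply Complex.ofRealHom x
  have eS : ∀ x : ℝ, sc.eval (x : ℂ) = ((s.eval x : ℝ) : ℂ) := by
    intro x
    rw [hscd]
    exact eval_map_apply Complex.ofRealHom x
  have hR0 : R.eval 0 = 0 := by
    have h1 := eW 0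
    have h2 := eS 0
    rw [Complex.ofReal_zero] at h1 h2
    rw [hR, eval_sub, eval_mul, eval_C, h1, h2, hW0]
    push_cast
    ring
  obtain ⟨R1, hR1⟩ := dvd_iff_isRoot.mpr hR0
  rw [C_0, sub_zero] at hR1
  have h1 := mpo _ _ R1 rfl (hzf g0 hpos0) (by
    intro z hz
    have h2 := hpl g0 hpos0 z hz
    rw [← hR, hR1, eval_mul, eval_X, norm_mul, hz, one_mul] at h2
    exact h2) (a : ℂ) (by rw [Complex.norm_real, Real.norm_eq_abs, abs_of_pos ha0]; exact ha1)
  have h2 : ‖R.eval (a : ℂ)‖ ≤ a * ‖(Wc + C (g0 : ℂ) * sc).eval (a : ℂ)‖ := by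
    rw [hR1, eval_mul, eval_X, norm_mul, Complex.norm_real, Real.norm_eq_abs, abs_of_pos ha0]
    exact mul_le_mul_of_nonneg_left h1 ha0.le
  have e3 : R.eval (a : ℂ) = (((H - g0) * s.eval a : ℝ) : ℂ) := by
    rw [hR, eval_sub, eval_mul, eval_C, eW, eS, hWa]
    push_cast
    ring
  have e4 : (Wc + C (g0 : ℂ) * sc).eval (a : ℂ) = (((H + g0) * s.eval a : ℝ) : ℂ) := by
    rw [eval_add, eval_mul, eval_C, eW, eS, hWa]
    push_cast
    ring
  rw [e3, e4, Complex.norm_real, Complex.norm_real, Real.norm_eq_abs, Real.norm_eq_abs, abs_mul,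
    abs_mul, ← mul_assoc] at h2
  have h3 := le_of_mul_le_mul_right h2 (abs_pos.mpr hsa0)
  rw [abs_of_pos (show 0 < H + g0 by linarith)] at h3
  have h4 := neg_abs_le (H - g0)
  rw [div_mul_eq_mul_div, div_le_iff₀ hq]
  nlinarith

end Pool.Agent.B5.H29

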